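import Mathlib

set_option autoImplicit false

/-! Binary rooted tree: vertices are `List Bool`. The group `L` of tree automorphisms acting on level two
by translations. -/

namespace Pool.Agent.H87R3.Branch

abbrev W := List Bool

/-- prefix preserving permutations -/
def Pre (g : Equiv.Perm W) : Prop := ∀ v w : W, v <+: w ↔ g v <+: g w

theorem Pre.mul {g h : Equiv.Perm W} (hg : Pre g) (hh : Pre h) : Pre (g * h) := fun v w =>
  (hh v w).trans (hg _ _)

theorem Pre.inv {g : Equiv.Perm W} (hg : Pre g) : Pre g⁻¹ := fun v w => by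
  rw [hg (g⁻¹ v) (g⁻¹ w)]; simp

theorem Pre.one : Pre 1 := fun _ _ => Iff.rfl

theorem Pre.length_le {g : Equiv.Perm W} (hg : Pre g) (v : W) : v.length ≤ (g v).length := by
  induction v using List.reverseRecOn with
  | nil => simp
  | append_singleton v a ih =>
    have h1 : g v <+: g (v ++ [a]) := (hg _ _).1 (List.prefix_append _ _)
    have h2 : g v ≠ g (v ++ [a]) := by
      intro h
      have := g.injective h
      simp at this
    have h3 : (g v).length < (g (v ++ [a])).length := by
      rcases lt_or_eq_of_le h1.length_le with h | h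
      · exact h
      · exact absurd (h1.eq_of_length h) h2
    simp only [List.length_append, List.length_singleton]
    omega

theorem Pre.length_eq {g : Equiv.Perm W} (hg : Pre g) (v : W) : (g v).length = v.length := by
  refine le_antisymm ?_ (hg.length_le v)
  have := hg.inv.length_le (g v)
  simpa using this

/-- `g` acts on the first two letters by the translation `(s, t)`. -/
def Tr (g : Equiv.Perm W) (s t : Bool) : Prop :=
  ∀ a b : Bool, ∀ w : W, ∃ w' : W, g (a :: b :: w) = (a ^^ s) :: (b ^^ t) :: w'

theorem Tr.mul {g h : Equiv.Perm W} {s t s' t' : Bool} (hg : Tr g s t) (hh : Tr h s' t') :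
    Tr (g * h) (s ^^ s') (t ^^ t') := by
  intro a b w
  obtain ⟨w1, h1⟩ := hh a b w
  obtain ⟨w2, h2⟩ := hg (a ^^ s') (b ^^ t') w1
  refine ⟨w2, ?_⟩
  rw [Equiv.Perm.mul_apply, h1, h2]
  cases a <;> cases b <;> cases s <;> cases t <;> cases s' <;> cases t' <;> rfl

theorem Tr.inv {g : Equiv.Perm W} (hp : Pre g) {s t : Bool} (hg : Tr g s t) : Tr g⁻¹ s t := by
  intro a b w
  have hl : (g⁻¹ (a :: b :: w)).length = w.length + 2 := by
    rw [hp.inv.length_eq]; rfl
  rcases h : g⁻¹ (a :: b :: w) with _ | ⟨c, _ | ⟨d, u⟩⟩
  · rw [h] at hl; simp at hl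
  · rw [h] at hl; simp at hl
  · refine ⟨u, ?_⟩
    have h1 : a :: b :: w = g (c :: d :: u) := by rw [← h]; simp
    obtain ⟨w', h2⟩ := hg c d u
    rw [h2] at h1
    injection h1 with h3 h4
    injection h4 with h5 h6
    rw [h3, h5]
    cases c <;> cases d <;> cases s <;> cases t <;> rfl

theorem Tr.one : Tr 1 false false := by
  intro a b w
  exact ⟨w, by cases a <;> cases b <;> rfl⟩

theorem Tr.unique {g : Equiv.Perm W} {s t s' t' : Bool} (h : Tr g s t) (h' : Tr g s' t') :
    s = s' ∧ t = t' := by
  obtain ⟨w1, h1⟩ := h false false []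
  obtain ⟨w2, h2⟩ := h' false false []
  rw [h1] at h2
  injection h2 with h3 h4
  injection h4 with h5 h6
  constructor
  · revert h3; cases s <;> cases s' <;> simp
  · revert h5; cases t <;> cases t' <;> simp

/-- The group. -/
def L : Subgroup (Equiv.Perm W) where
  carrier := {g | Pre g ∧ ∃ s t : Bool, Tr g s t}
  mul_mem' := by
    rintro g h ⟨hg, s, t, hg'⟩ ⟨hh, s', t', hh'⟩
    exact ⟨hg.mul hh, _, _, hg'.mul hh'⟩
  one_mem' := ⟨Pre.one, _, _, Tr.one⟩
  inv_mem' := by
    rintro g ⟨hg, s, t, hg'⟩
    exact ⟨hg.inv, _, _, hg'.inv hg⟩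

/-! ### transitivity -/

/-- letterwise translation -/
def tr : (ℕ → Bool) → W → W
  | _, [] => []
  | x, a :: v => (a ^^ x 0) :: tr (fun n => x (n + 1)) v

theorem tr_tr (v : W) : ∀ x, tr x (tr x v) = v := by
  induction v with
  | nil => intro x; rfl
  | cons a v ih =>
    intro x
    simp only [tr, ih]
    congr 1
    cases a <;> cases x 0 <;> rfl

theorem tr_prefix (v : W) : ∀ (x : ℕ → Bool) (w : W), v <+: w → tr x v <+: tr x w := by
  induction v with
  | nil => intro x w _; exact List.nil_prefix
  | cons a v ih =>
    intro x w h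
    rcases w with _ | ⟨b, w⟩
    · simp at h
    · rw [List.cons_prefix_cons] at h
      simp only [tr]
      rw [List.cons_prefix_cons]
      exact ⟨by rw [h.1], ih _ _ h.2⟩

def trP (x : ℕ → Bool) : Equiv.Perm W where
  toFun := tr x
  invFun := tr x
  left_inv v := tr_tr v x
  right_inv v := tr_tr v x

theorem trP_pre (x : ℕ → Bool) : Pre (trP x) := by
  intro v w
  constructor
  · exact tr_prefix v x w
  · intro h
    have := tr_prefix _ x _ h
    simpa [trP, tr_tr] using this

theorem trP_mem (x : ℕ → Bool) : trP x ∈ L :=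
  ⟨trP_pre x, x 0, x 1, fun _ _ w => ⟨tr (fun n => x (n + 1 + 1)) w, rfl⟩⟩

def dif : W → W → ℕ → Bool
  | a :: _, b :: _, 0 => a ^^ b
  | _ :: v, _ :: w, n + 1 => dif v w n
  | _, _, _ => false

theorem tr_dif (v : W) : ∀ w : W, v.length = w.length → tr (dif v w) v = w := by
  induction v with
  | nil =>
    intro w h
    rcases w with _ | ⟨b, w⟩
    · rfl
    · simp at h
  | cons a v ih =>
    intro w h
    rcases w with _ | ⟨b, w⟩
    · simp at h
    · simp only [List.length_cons, Nat.add_right_cancel_iff] at h
      have h1 : (fun n => dif (a :: v) (b :: w) (n + 1)) = dif v w := by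
        funext n; rfl
      simp only [tr, h1, ih w h]
      congr 1
      cases a <;> cases b <;> rfl

theorem transitive (v w : W) (h : v.length = w.length) : ∃ g ∈ L, g v = w :=
  ⟨trP (dif v w), trP_mem _, tr_dif v w h⟩

/-! ### localisation -/

section Loc

open Classical

theorem fix_take {g : Equiv.Perm W} (hg : Pre g) {N : ℕ} (hN : ∀ v : W, v.length = N → g v = v)
    (v : W) (hv : N ≤ v.length) : (g v).take N = v.take N := by
  have h1 : (v.take N).length = N := by simp [hv]
  have h2 : v.take N <+: g v := by
    have := (hg (v.take N) v).1 (List.take_prefix _ _)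
    rwa [hN _ h1] at this
  have h3 : (g v).take N <+: g v := List.take_prefix _ _
  have h4 : ((g v).take N).length = N := by simp [hg.length_eq, hv]
  rcases List.prefix_or_prefix_of_prefix h2 h3 with h | h
  · exact (h.eq_of_length (by rw [h1, h4])).symm
  · exact h.eq_of_length (by rw [h1, h4])

theorem fix_short {g : Equiv.Perm W} (hg : Pre g) {N : ℕ} (hN : ∀ v : W, v.length = N → g v = v)
    (v : W) (hv : v.length ≤ N) : g v = v := by
  have h1 : (v ++ List.replicate (N - v.length) false).length = N := by simp [hv]
  have h2 := (hg v _).1 (List.prefix_append v (List.replicate (N - v.length) false))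
  rw [hN _ h1] at h2
  rcases List.prefix_or_prefix_of_prefix h2 (List.prefix_append v _) with h | h
  · exact h.eq_of_length (hg.length_eq v)
  · exact (h.eq_of_length (hg.length_eq v).symm).symm

theorem fix_take' {g : Equiv.Perm W} (hg : Pre g) {N : ℕ} (hN : ∀ v : W, v.length = N → g v = v)
    (v : W) : (g v).take N = v.take N := by
  rcases le_total N v.length with h | h
  · exact fix_take hg hN v h
  · rw [fix_short hg hN v h]

/-- restriction of `g` to the subtrees with roots in `S` -/
noncomputable def locFun (g : Equiv.Perm W) (S : Set W) (N : ℕ) (v : W) : W :=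
  if v.take N ∈ S then g v else v

theorem locFun_inv {g h : Equiv.Perm W} (hg : Pre g) {N : ℕ}
    (hN : ∀ v : W, v.length = N → g v = v) (hh : ∀ v, h (g v) = v) (S : Set W) (v : W) :
    locFun h S N (locFun g S N v) = v := by
  unfold locFun
  by_cases h1 : v.take N ∈ S
  · rw [if_pos h1, fix_take' hg hN, if_pos h1, hh]
  · rw [if_neg h1, if_neg h1]

theorem inv_fix {g : Equiv.Perm W} {N : ℕ} (hN : ∀ v : W, v.length = N → g v = v) :
    ∀ v : W, v.length = N → g⁻¹ v = v := by
  intro v hv
  rw [Equiv.Perm.inv_eq_iff_eq, hN v hv]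

noncomputable def loc (g : Equiv.Perm W) (hg : Pre g) (N : ℕ)
    (hN : ∀ v : W, v.length = N → g v = v) (S : Set W) : Equiv.Perm W where
  toFun := locFun g S N
  invFun := locFun g⁻¹ S N
  left_inv := locFun_inv hg hN (fun v => by simp) S
  right_inv := locFun_inv hg.inv (inv_fix hN) (fun v => by simp) S

theorem loc_apply (g : Equiv.Perm W) (hg : Pre g) (N : ℕ)
    (hN : ∀ v : W, v.length = N → g v = v) (S : Set W) (v : W) :
    loc g hg N hN S v = if v.take N ∈ S then g v else v := rfl

theorem locFun_prefix {g : Equiv.Perm W} (hg : Pre g) {N : ℕ}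
    (hN : ∀ v : W, v.length = N → g v = v) (S : Set W) {v w : W} (h : v <+: w) :
    locFun g S N v <+: locFun g S N w := by
  unfold locFun
  rcases le_total N v.length with h1 | h1
  · have h2 : v.take N = w.take N := by
      obtain ⟨u, rfl⟩ := h
      rw [List.take_append_of_le_length h1]
    rw [← h2]
    split_ifs
    · exact (hg _ _).1 h
    · exact h
  · have h2 : (if v.take N ∈ S then g v else v) = v := by
      split_ifs
      · exact fix_short hg hN v h1
      · rfl
    rw [h2]
    split_ifs
    · have := (hg _ _).1 h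
      rwa [fix_short hg hN v h1] at this
    · exact h

theorem loc_pre (g : Equiv.Perm W) (hg : Pre g) (N : ℕ)
    (hN : ∀ v : W, v.length = N → g v = v) (S : Set W) : Pre (loc g hg N hN S) := by
  intro v w
  constructor
  · exact locFun_prefix hg hN S
  · intro h
    have h1 := locFun_prefix hg.inv (inv_fix hN) S h
    have h2 := locFun_inv hg hN (fun v => by simp : ∀ v, g⁻¹ (g v) = v) S
    change locFun g⁻¹ S N (locFun g S N v) <+: locFun g⁻¹ S N (locFun g S N w) at h1
    rwa [h2, h2] at h1

theorem tr_of_fix {g : Equiv.Perm W} (hg : Pre g) {N : ℕ} (h2 : 2 ≤ N)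
    (hN : ∀ v : W, v.length = N → g v = v) : Tr g false false := by
  intro a b w
  have h3 : g [a, b] = [a, b] := fix_short hg hN _ h2
  have h4 : [a, b] <+: g (a :: b :: w) := by
    have := (hg [a, b] (a :: b :: w)).1 ⟨w, rfl⟩
    rwa [h3] at this
  obtain ⟨u, hu⟩ := h4
  refine ⟨u, ?_⟩
  rw [← hu]
  cases a <;> cases b <;> rfl

theorem loc_mem (g : Equiv.Perm W) (hg : Pre g) (N : ℕ) (h2 : 2 ≤ N)
    (hN : ∀ v : W, v.length = N → g v = v) (S : Set W) : loc g hg N hN S ∈ L := by
  refine ⟨loc_pre g hg N hN S, false, false, tr_of_fix (loc_pre g hg N hN S) h2 ?_⟩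
  intro v hv
  rw [loc_apply]
  split_ifs
  · exact hN v hv
  · rfl

/-- the generating set of the rigid level stabiliser -/
def rigid (n : ℕ) : Set (Equiv.Perm W) :=
  {g | g ∈ L ∧ ∃ u : W, u.length = n ∧ ∀ v : W, ¬ u <+: v → g v = v}

theorem loc_rigid (g : Equiv.Perm W) (hg : Pre g) (N n : ℕ) (h2 : 2 ≤ N) (hn : n ≤ N)
    (hN : ∀ v : W, v.length = N → g v = v) (S : Finset W) :
    loc g hg N hN (S : Set W) ∈ Subgroup.closure (rigid n) := by
  induction S using Finset.induction_on with
  | empty =>
    have : loc g hg N hN ((∅ : Finset W) : Set W) = 1 := by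
      ext1 v
      rw [loc_apply]
      simp
    rw [this]
    exact one_mem _
  | insert u S hu ih =>
    have h3 : loc g hg N hN ((insert u S : Finset W) : Set W) =
        loc g hg N hN {u} * loc g hg N hN (S : Set W) := by
      ext1 v
      rw [Equiv.Perm.mul_apply, loc_apply, loc_apply, loc_apply]
      by_cases h4 : v.take N = u
      · have h5 : v.take N ∉ (S : Set W) := by rw [h4]; simpa using hu
        rw [if_neg h5]
        simp [h4]
      · by_cases h5 : v.take N ∈ (S : Set W)
        · rw [if_pos h5, fix_take' hg hN]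
          have h6 : v.take N ∈ ((insert u S : Finset W) : Set W) := by
            simp only [Finset.coe_insert, Set.mem_insert_iff]
            exact Or.inr h5
          rw [if_pos h6, if_neg (by simpa using h4)]
        · have h6 : v.take N ∉ ((insert u S : Finset W) : Set W) := by
            simp only [Finset.coe_insert, Set.mem_insert_iff]
            rintro (h | h)
            · exact h4 h
            · exact h5 h
          rw [if_neg h6, if_neg h5, if_neg (by simpa using h4)]
    rw [h3]
    refine mul_mem ?_ ih
    by_cases h4 : u.length = N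
    · refine Subgroup.subset_closure ⟨loc_mem g hg N h2 hN _, u.take n, by simp [h4, hn], ?_⟩
      intro v hv
      rw [loc_apply, if_neg]
      intro h5
      apply hv
      rw [Set.mem_singleton_iff] at h5
      rw [← h5, List.take_take, min_eq_left hn]
      exact List.take_prefix _ _
    · have : loc g hg N hN {u} = 1 := by
        ext1 v
        rw [loc_apply, Equiv.Perm.one_apply]
        split_ifs with h5
        · rw [Set.mem_singleton_iff] at h5
          have h6 : v.length ≤ N := by
            by_contra h7
            apply h4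
            rw [← h5]
            simp only [List.length_take]
            omega
          exact fix_short hg hN v h6
        · rfl
      rw [this]
      exact one_mem _

theorem stab_le (g : Equiv.Perm W) (hg : Pre g) (N n : ℕ) (h2 : 2 ≤ N) (hn : n ≤ N)
    (hN : ∀ v : W, v.length = N → g v = v) : g ∈ Subgroup.closure (rigid n) := by
  have h1 := loc_rigid g hg N n h2 hn hN (List.finite_length_le Bool N).toFinset
  have h3 : loc g hg N hN ((List.finite_length_le Bool N).toFinset : Set W) = g := by
    ext1 v
    rw [loc_apply, if_pos]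
    simp
  rwa [h3] at h1

end Loc

theorem index_ne_zero (n : ℕ) : ((Subgroup.closure (rigid n)).subgroupOf L).index ≠ 0 := by
  classical
  set N := max n 2 with hNdef
  have hfin : Finite {v : W // v.length = N} := (List.finite_length_eq Bool N).to_subtype
  have h1 : (⨅ v : {v : W // v.length = N}, MulAction.stabilizer L v.1) ≤
      (Subgroup.closure (rigid n)).subgroupOf L := by
    intro g hg
    rw [Subgroup.mem_subgroupOf]
    refine stab_le g.1 g.2.1 N n (le_max_right _ _) (le_max_left _ _) ?_
    intro v hv
    have := (Subgroup.mem_iInf.1 hg) ⟨v, hv⟩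
    rw [MulAction.mem_stabilizer_iff] at this
    exact this
  have h2 : (⨅ v : {v : W // v.length = N}, MulAction.stabilizer L v.1).FiniteIndex := by
    refine Subgroup.finiteIndex_iInf ?_
    rintro ⟨v, hv⟩
    constructor
    rw [MulAction.index_stabilizer]
    have hf : (MulAction.orbit L v).Finite := by
      refine (List.finite_length_eq Bool N).subset ?_
      rintro _ ⟨g, rfl⟩
      change ((g.1 : Equiv.Perm W) v).length = N
      rw [g.2.1.length_eq, hv]
    exact Set.ncard_ne_zero_of_mem (MulAction.mem_orbit_self v) hf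
  exact (Subgroup.finiteIndex_of_le h1).index_ne_zero

end Pool.Agent.H87R3.Branch
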