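import Pool.Agent.H87R3.Branch

set_option autoImplicit false

/-! The automorphism of `L` exchanging the first two coordinates. -/

namespace Pool.Agent.H87R3.Branch

/-- exchange the first two letters -/
def sw : W → W
  | a :: b :: w => b :: a :: w
  | v => v

/-- the second translation parameter -/
def par (g : W → W) : Bool :=
  match g [false, false] with
  | _ :: b :: _ => b
  | _ => false

theorem par_eq {g : Equiv.Perm W} {s t : Bool} (h : Tr g s t) : par g = t := by
  obtain ⟨w, hw⟩ := h false false []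
  unfold par
  rw [hw]
  cases t <;> rfl

/-- the new action -/
def psi (g : W → W) : W → W
  | [] => []
  | [a] => [a ^^ par g]
  | a :: b :: w => sw (g (b :: a :: w))

theorem psi_one (v : W) : psi (fun v => v) v = v := by
  rcases v with _ | ⟨a, _ | ⟨b, w⟩⟩
  · rfl
  · cases a <;> rfl
  · rfl

theorem psi_mul {g h : Equiv.Perm W} {s t s' t' : Bool} (hg : Tr g s t) (hh : Tr h s' t') (v : W) :
    psi (g * h : Equiv.Perm W) v = psi g (psi h v) := by
  rcases v with _ | ⟨a, _ | ⟨b, w⟩⟩
  · rfl
  · simp only [psi]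
    rw [par_eq hg, par_eq hh, par_eq (hg.mul hh)]
    cases a <;> cases t <;> cases t' <;> rfl
  · obtain ⟨w1, h1⟩ := hh b a w
    obtain ⟨w2, h2⟩ := hg (b ^^ s') (a ^^ t') w1
    simp only [psi, Equiv.Perm.mul_apply, h1, h2, sw]

theorem psi_psi {g : Equiv.Perm W} {s t : Bool} (hp : Pre g) (hg : Tr g s t) (v : W) :
    psi (psi g) v = g v := by
  rcases v with _ | ⟨a, _ | ⟨b, w⟩⟩
  · have := hp.length_eq []
    rw [List.length_nil, List.length_eq_zero_iff] at this
    rw [this]
    rfl
  · have h1 : par (psi g) = s := by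
      obtain ⟨w1, h1⟩ := hg false false []
      simp only [par, psi, h1, sw]
      cases s <;> rfl
    simp only [psi, h1]
    obtain ⟨w1, h2⟩ := hg a false []
    have h3 : g [a] <+: g [a, false] := (hp _ _).1 ⟨[false], rfl⟩
    rw [h2] at h3
    have h4 : (g [a]).length = 1 := hp.length_eq [a]
    rcases h5 : g [a] with _ | ⟨c, _ | ⟨d, u⟩⟩
    · rw [h5] at h4; simp at h4
    · rw [h5, List.cons_prefix_cons] at h3
      rw [h3.1]
    · rw [h5] at h4; simp at h4
  · obtain ⟨w1, h1⟩ := hg a b w
    simp only [psi, sw, h1]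

theorem psi_prefix {g : Equiv.Perm W} {s t : Bool} (hp : Pre g) (hg : Tr g s t) {v w : W}
    (h : v <+: w) : psi g v <+: psi g w := by
  rcases v with _ | ⟨a, _ | ⟨b, v⟩⟩
  · exact List.nil_prefix
  · rcases w with _ | ⟨c, _ | ⟨d, w⟩⟩
    · simp at h
    · rw [List.cons_prefix_cons] at h
      rw [h.1]
    · rw [List.cons_prefix_cons] at h
      obtain ⟨rfl, -⟩ := h
      obtain ⟨w1, h1⟩ := hg d a w
      simp only [psi, h1, sw, par_eq hg]
      exact ⟨(d ^^ s) :: w1, rfl⟩
  · rcases w with _ | ⟨c, _ | ⟨d, w⟩⟩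
    · simp at h
    · rw [List.cons_prefix_cons] at h
      simp at h
    · rw [List.cons_prefix_cons, List.cons_prefix_cons] at h
      obtain ⟨rfl, rfl, h⟩ := h
      have h3 : g (b :: a :: v) <+: g (b :: a :: w) := by
        rw [← hp, List.cons_prefix_cons, List.cons_prefix_cons]
        exact ⟨rfl, rfl, h⟩
      obtain ⟨w1, h1⟩ := hg b a w
      obtain ⟨w2, h2⟩ := hg b a v
      rw [h1, h2, List.cons_prefix_cons, List.cons_prefix_cons] at h3
      simp only [psi, h1, h2, sw]
      rw [List.cons_prefix_cons, List.cons_prefix_cons]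
      exact ⟨rfl, rfl, h3.2.2⟩

theorem psi_left {g : Equiv.Perm W} (hg : g ∈ L) (v : W) : psi (g⁻¹ : Equiv.Perm W) (psi g v) = v := by
  obtain ⟨hp, s, t, ht⟩ := hg
  rw [← psi_mul (ht.inv hp) ht]
  simp only [inv_mul_cancel]
  exact psi_one v

/-- the new action as a permutation -/
def psiP (g : L) : Equiv.Perm W where
  toFun := psi g.1
  invFun := psi (g.1⁻¹ : Equiv.Perm W)
  left_inv := psi_left g.2
  right_inv v := by
    have := psi_left (inv_mem g.2) v
    rwa [inv_inv] at this

theorem psiP_pre (g : L) : Pre (psiP g) := by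
  obtain ⟨g, hp, s, t, ht⟩ := g
  intro v w
  constructor
  · exact psi_prefix hp ht
  · intro h
    have h1 := psi_prefix hp.inv (ht.inv hp) h
    have h2 := psi_left (⟨hp, s, t, ht⟩ : g ∈ L)
    change psi (g⁻¹ : Equiv.Perm W) (psi g v) <+: psi (g⁻¹ : Equiv.Perm W) (psi g w) at h1
    rwa [h2, h2] at h1

theorem psiP_mem (g : L) : psiP g ∈ L := by
  refine ⟨psiP_pre g, ?_⟩
  obtain ⟨g, hp, s, t, ht⟩ := g
  refine ⟨t, s, ?_⟩
  intro a b w
  obtain ⟨w1, h1⟩ := ht b a w
  refine ⟨w1, ?_⟩
  change psi g (a :: b :: w) = _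
  simp only [psi, h1, sw]

/-- the automorphism of `L` -/
def phi : L ≃* L where
  toFun g := ⟨psiP g, psiP_mem g⟩
  invFun g := ⟨psiP g, psiP_mem g⟩
  left_inv g := by
    apply Subtype.ext
    ext1 v
    obtain ⟨g, hp, s, t, ht⟩ := g
    exact psi_psi hp ht v
  right_inv g := by
    apply Subtype.ext
    ext1 v
    obtain ⟨g, hp, s, t, ht⟩ := g
    exact psi_psi hp ht v
  map_mul' g h := by
    apply Subtype.ext
    ext1 v
    obtain ⟨g, hp, s, t, ht⟩ := g
    obtain ⟨h, hp', s', t', ht'⟩ := h
    exact psi_mul ht ht' v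

theorem phi_apply (g : L) (v : W) : (phi g).1 v = psi g.1 v := rfl

/-- flip the third letter if the first two are `a`, `b` -/
def flFun (a b : Bool) : W → W
  | x :: y :: z :: w => if x = a ∧ y = b then x :: y :: (!z) :: w else x :: y :: z :: w
  | v => v

theorem flFun_flFun (a b : Bool) (v : W) : flFun a b (flFun a b v) = v := by
  rcases v with _ | ⟨x, _ | ⟨y, _ | ⟨z, w⟩⟩⟩
  · rfl
  · rfl
  · rfl
  · by_cases h : x = a ∧ y = b
    · simp [flFun, h]
    · simp [flFun, h]

def fl (a b : Bool) : Equiv.Perm W where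
  toFun := flFun a b
  invFun := flFun a b
  left_inv := flFun_flFun a b
  right_inv := flFun_flFun a b

theorem flFun_prefix (a b : Bool) {v w : W} (h : v <+: w) : flFun a b v <+: flFun a b w := by
  obtain ⟨u, rfl⟩ := h
  rcases v with _ | ⟨x, _ | ⟨y, _ | ⟨z, v⟩⟩⟩
  · exact List.nil_prefix
  · rcases u with _ | ⟨y, _ | ⟨z, u⟩⟩
    · exact List.prefix_rfl
    · exact List.prefix_append _ _
    · simp only [flFun, List.cons_append, List.nil_append]
      split_ifs <;> exact ⟨_, rfl⟩
  · rcases u with _ | ⟨z, u⟩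
    · exact List.prefix_rfl
    · simp only [flFun, List.cons_append, List.nil_append]
      split_ifs <;> exact ⟨_, rfl⟩
  · simp only [flFun, List.cons_append]
    split_ifs <;> exact ⟨u, rfl⟩

theorem fl_pre (a b : Bool) : Pre (fl a b) := by
  intro v w
  constructor
  · exact flFun_prefix a b
  · intro h
    have := flFun_prefix a b h
    change flFun a b (flFun a b v) <+: flFun a b (flFun a b w) at this
    rwa [flFun_flFun, flFun_flFun] at this

theorem fl_mem (a b : Bool) : fl a b ∈ L := by
  refine ⟨fl_pre a b, false, false, ?_⟩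
  intro x y w
  rcases w with _ | ⟨z, w⟩
  · exact ⟨[], by cases x <;> cases y <;> rfl⟩
  · by_cases h : x = a ∧ y = b
    · refine ⟨(!z) :: w, ?_⟩
      change flFun a b (x :: y :: z :: w) = _
      simp only [flFun, if_pos h]
      cases x <;> cases y <;> rfl
    · refine ⟨z :: w, ?_⟩
      change flFun a b (x :: y :: z :: w) = _
      simp only [flFun, if_neg h]
      cases x <;> cases y <;> rfl

theorem psi_fl (a b : Bool) (v : W) : psi (fl a b) v = flFun b a v := by
  rcases v with _ | ⟨x, _ | ⟨y, _ | ⟨z, w⟩⟩⟩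
  · rfl
  · simp only [psi]
    rw [par_eq (g := fl a b) (s := false) (t := false)]
    · cases x <;> rfl
    · intro x y w
      rcases w with _ | ⟨z, w⟩
      · exact ⟨[], by cases x <;> cases y <;> rfl⟩
      · by_cases h : x = a ∧ y = b
        · refine ⟨(!z) :: w, ?_⟩
          change flFun a b (x :: y :: z :: w) = _
          simp only [flFun, if_pos h]
          cases x <;> cases y <;> rfl
        · refine ⟨z :: w, ?_⟩
          change flFun a b (x :: y :: z :: w) = _
          simp only [flFun, if_neg h]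
          cases x <;> cases y <;> rfl
  · rfl
  · change sw (flFun a b (y :: x :: z :: w)) = flFun b a (x :: y :: z :: w)
    by_cases h : y = a ∧ x = b
    · simp [flFun, h, sw]
    · have h' : ¬ (x = b ∧ y = a) := fun h1 => h ⟨h1.2, h1.1⟩
      simp [flFun, h, h', sw]

/-- a vertex moved by `fl a b` lies below `[a, b]` -/
theorem moved (a b : Bool) (v : W) (h : flFun a b v ≠ v) : ∃ w, v = a :: b :: w := by
  rcases v with _ | ⟨x, _ | ⟨y, _ | ⟨z, w⟩⟩⟩
  · exact absurd rfl h
  · exact absurd rfl h
  · exact absurd rfl h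
  · by_cases h1 : x = a ∧ y = b
    · exact ⟨z :: w, by rw [h1.1, h1.2]⟩
    · exact absurd (by simp [flFun, h1]) h

/-- The automorphism `phi` is not induced by a tree automorphism. -/
theorem not_induced (σ : Equiv.Perm W) (hσ : Pre σ)
    (h : ∀ g : L, ((phi g : L) : Equiv.Perm W) = σ * (g : Equiv.Perm W) * σ⁻¹) : False := by
  have key : ∀ a b : Bool, ∃ w, σ [a, b, false] = b :: a :: w := by
    intro a b
    apply moved
    intro h1
    have h2 := h ⟨fl a b, fl_mem a b⟩
    have h3 : psi (fl a b) (σ [a, b, false]) = (σ * fl a b * σ⁻¹) (σ [a, b, false]) := by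
      change (phi ⟨fl a b, fl_mem a b⟩).1 (σ [a, b, false]) = _
      rw [h2]
    rw [psi_fl, h1] at h3
    have h6 : σ⁻¹ (σ [a, b, false]) = [a, b, false] := by simp
    rw [Equiv.Perm.mul_apply, Equiv.Perm.mul_apply, h6] at h3
    have h4 := σ.injective h3
    have h5 : fl a b [a, b, false] = [a, b, true] := by
      change flFun a b [a, b, false] = _
      simp [flFun]
    rw [h5] at h4
    simp at h4
  obtain ⟨w1, h1⟩ := key false true
  obtain ⟨w2, h2⟩ := key false false
  have h3 : σ [false] <+: true :: false :: w1 := by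
    rw [← h1]; exact (hσ _ _).1 ⟨_, rfl⟩
  have h4 : σ [false] <+: false :: false :: w2 := by
    rw [← h2]; exact (hσ _ _).1 ⟨_, rfl⟩
  have h5 : (σ [false]).length = 1 := hσ.length_eq [false]
  rcases h6 : σ [false] with _ | ⟨c, u⟩
  · rw [h6] at h5; simp at h5
  · rw [h6, List.cons_prefix_cons] at h3 h4
    have := h3.1.symm.trans h4.1
    simp at this

end Pool.Agent.H87R3.Branch
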