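import Pool.Agent.H87R3.Branch2

set_option autoImplicit false

/-! Transport to lists of natural numbers smaller than two. -/

namespace Pool.Agent.H87R3.Branch

def mm : ℕ → ℕ := fun _ => 2

abbrev V := {l : List ℕ // ∀ i (h : i < l.length), l.get ⟨i, h⟩ < mm i}

def toW (v : V) : W := v.1.map (fun n => decide (n = 1))

def toL (w : W) : List ℕ := w.map (fun b => if b then 1 else 0)

def toV (w : W) : V := ⟨toL w, by
  intro i h
  unfold mm toL
  simp only [List.get_eq_getElem, List.getElem_map]
  split_ifs <;> omega⟩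

theorem toL_toW (v : V) : toL (toW v) = v.1 := by
  unfold toL toW
  rw [List.map_map]
  conv_rhs => rw [← List.map_id v.1]
  apply List.map_congr_left
  intro n hn
  obtain ⟨i, hi, rfl⟩ := List.getElem_of_mem hn
  have h1 : v.1[i] < 2 := v.2 i hi
  simp only [Function.comp, id]
  by_cases h : v.1[i] = 1
  · simp [h]
  · simp only [h, decide_false]
    have : v.1[i] = 0 := by omega
    simp [this]

theorem toW_toV (w : W) : toW (toV w) = w := by
  unfold toW toV toL
  rw [List.map_map]
  conv_rhs => rw [← List.map_id w]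
  apply List.map_congr_left
  intro b _
  cases b <;> rfl

def e : V ≃ W where
  toFun := toW
  invFun := toV
  left_inv v := Subtype.ext (toL_toW v)
  right_inv := toW_toV

theorem e_prefix (v w : V) : v.1 <+: w.1 ↔ e v <+: e w := by
  constructor
  · intro h
    exact h.map _
  · intro h
    have h1 : toL (toW v) <+: toL (toW w) := h.map _
    rwa [toL_toW, toL_toW] at h1

theorem e_length (v : V) : (e v).length = v.1.length := by
  change (toW v).length = _
  simp [toW]

def E : Equiv.Perm V ≃* Equiv.Perm W := e.permCongrHom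

theorem E_apply (g : Equiv.Perm V) (v : V) : (E g) (e v) = e (g v) := by
  change e (g (e.symm (e v))) = _
  rw [Equiv.symm_apply_apply]

theorem Esymm_apply (g : Equiv.Perm W) (v : V) : e ((E.symm g) v) = g (e v) := by
  rw [← E_apply, MulEquiv.apply_symm_apply]

def LV : Subgroup (Equiv.Perm V) := L.map (E.symm : Equiv.Perm W ≃* Equiv.Perm V).toMonoidHom

theorem mem_LV (g : Equiv.Perm V) : g ∈ LV ↔ E g ∈ L := by
  unfold LV
  constructor
  · rintro ⟨h, hh, rfl⟩
    change E (E.symm h) ∈ L
    rwa [MulEquiv.apply_symm_apply]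
  · intro h
    exact ⟨E g, h, MulEquiv.symm_apply_apply _ _⟩

theorem preV_iff (g : Equiv.Perm V) : (∀ v w : V, v.1 <+: w.1 ↔ (g v).1 <+: (g w).1) ↔ Pre (E g) := by
  constructor
  · intro h v w
    have h1 := h (e.symm v) (e.symm w)
    rw [e_prefix, e_prefix, ← E_apply, ← E_apply] at h1
    simpa using h1
  · intro h v w
    rw [e_prefix, e_prefix, ← E_apply, ← E_apply]
    exact h _ _

def eL : L ≃* LV := (E.symm : Equiv.Perm W ≃* Equiv.Perm V).subgroupMap L

theorem eL_apply (g : L) : ((eL g : LV) : Equiv.Perm V) = E.symm g.1 := rfl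

theorem eLsymm_apply (g : LV) : ((eL.symm g : L) : Equiv.Perm W) = E g.1 := by
  have h : eL (eL.symm g) = g := MulEquiv.apply_symm_apply _ _
  have h1 : E.symm (eL.symm g).1 = g.1 := by rw [← eL_apply, h]
  rw [← h1, MulEquiv.apply_symm_apply]

def phiV : LV ≃* LV := (eL.symm.trans phi).trans eL

theorem main1 : ∀ v w : V, v.1.length = w.1.length → ∃ g ∈ LV, g v = w := by
  intro v w h
  obtain ⟨g, hg, hg'⟩ := transitive (e v) (e w) (by rw [e_length, e_length, h])
  refine ⟨E.symm g, ⟨g, hg, rfl⟩, ?_⟩
  apply e.injective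
  rw [Esymm_apply, hg']

theorem main2 (n : ℕ) : ((Subgroup.closure
        {g : Equiv.Perm V |
          g ∈ LV ∧ ∃ u : V,
            u.1.length = n ∧
            ∀ v : V,
              ¬ List.IsPrefix u.1 v.1 → g v = v}).subgroupOf LV).index ≠ 0 := by
  have h1 := index_ne_zero n
  set R' := Subgroup.closure
        {g : Equiv.Perm V |
          g ∈ LV ∧ ∃ u : V,
            u.1.length = n ∧
            ∀ v : V,
              ¬ List.IsPrefix u.1 v.1 → g v = v} with hR'
  have h2 : ((Subgroup.closure (rigid n)).subgroupOf L) ≤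
      (R'.subgroupOf LV).comap eL.toMonoidHom := by
    intro g hg
    rw [Subgroup.mem_subgroupOf] at hg
    rw [Subgroup.mem_comap, Subgroup.mem_subgroupOf]
    change E.symm g.1 ∈ R'
    have h3 : (Subgroup.closure (rigid n)).map (E.symm : Equiv.Perm W ≃* Equiv.Perm V).toMonoidHom
        ≤ R' := by
      rw [MonoidHom.map_closure]
      apply Subgroup.closure_mono
      rintro _ ⟨h, ⟨hh, u, hu, hv⟩, rfl⟩
      refine ⟨⟨h, hh, rfl⟩, e.symm u, ?_, ?_⟩
      · rw [← e_length, Equiv.apply_symm_apply, hu]
      · intro v hv'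
        rw [e_prefix, Equiv.apply_symm_apply] at hv'
        apply e.injective
        change e ((E.symm h) v) = e v
        rw [Esymm_apply, hv _ hv']
    exact h3 ⟨g.1, hg, rfl⟩
  have h4 : ((R'.subgroupOf LV).comap eL.toMonoidHom).index = (R'.subgroupOf LV).index :=
    Subgroup.index_comap_of_surjective _ eL.surjective
  rw [← h4]
  have h5 : ((Subgroup.closure (rigid n)).subgroupOf L).FiniteIndex := ⟨h1⟩
  exact (Subgroup.finiteIndex_of_le h2).index_ne_zero

theorem main3 (σ : Equiv.Perm V) (hσ : ∀ v w : V, v.1 <+: w.1 ↔ (σ v).1 <+: (σ w).1)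
    (h : ∀ g : LV, ((phiV g : LV) : Equiv.Perm V) = σ * (g : Equiv.Perm V) * σ⁻¹) : False := by
  apply not_induced (E σ) ((preV_iff σ).1 hσ)
  intro g
  have h1 := h (eL g)
  have h2 : phiV (eL g) = eL (phi g) := by
    change eL (phi (eL.symm (eL g))) = _
    rw [MulEquiv.symm_apply_apply]
  rw [h2, eL_apply, eL_apply] at h1
  have h3 := congrArg E h1
  rw [map_mul, map_mul, map_inv, MulEquiv.apply_symm_apply, MulEquiv.apply_symm_apply] at h3
  exact h3

end Pool.Agent.H87R3.Branch
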