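import Pool.Agent.H87R3.DRFourier

set_option autoImplicit false

namespace Pool.Agent.H87R3.DR

open Finset

/-- a parameter `L` is good for `b` -/
def Good (b L : ℕ) : Prop :=
  1 ≤ L ∧ b + 1 ≤ L ∧ ∀ ℓ m : ℕ, 1 ≤ ℓ → m < 2 ^ ℓ →
    ((L * ℓ : ℕ) : ℝ) * ((1 + b * (Real.cos (Real.pi / (4 * b))) ^ (L * ℓ)) ^ m - 1) ≤ 1 / 2

theorem cos_facts (b : ℕ) (hb : 2 ≤ b) :
    0 ≤ Real.cos (Real.pi / (4 * b)) ∧ Real.cos (Real.pi / (4 * b)) < 1 := by
  have hpi := Real.pi_pos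
  have hbR : (2 : ℝ) ≤ b := by exact_mod_cast hb
  have h0 : 0 < Real.pi / (4 * b) := by positivity
  have h1 : Real.pi / (4 * b) ≤ Real.pi / 2 :=
    div_le_div_of_nonneg_left hpi.le (by norm_num) (by linarith)
  constructor
  · apply Real.cos_nonneg_of_neg_pi_div_two_le_of_le _ h1
    linarith
  · have := Real.cos_lt_cos_of_nonneg_of_le_pi (x := 0) (y := Real.pi / (4 * b)) le_rfl
      (by linarith) h0
    simpa using this

theorem exists_good (b : ℕ) (hb : 2 ≤ b) : ∃ L, Good b L := by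
  obtain ⟨hc0, hc1⟩ := cos_facts b hb
  set c := Real.cos (Real.pi / (4 * b)) with hc
  have hbR : (2 : ℝ) ≤ b := by exact_mod_cast hb
  have ht := tendsto_self_mul_const_pow_of_lt_one hc0 hc1
  have hpos : (0 : ℝ) < 1 / (16 * b) := by positivity
  have hev := (ht.eventually_lt_const hpos).and (Filter.eventually_ge_atTop (b + 1))
  obtain ⟨L, hL1, hL2⟩ := hev.exists
  have hLpos : 1 ≤ L := by omega
  have hLR : (1 : ℝ) ≤ L := by exact_mod_cast hLpos
  refine ⟨L, hLpos, hL2, ?_⟩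
  intro ℓ m hℓ hm
  have hcL : 2 * c ^ L ≤ 1 / (8 * b * L) := by
    rw [lt_div_iff₀ (by positivity)] at hL1
    rw [le_div_iff₀ (by positivity)]
    linarith
  have hcL0 : 0 ≤ c ^ L := by positivity
  set x := b * c ^ (L * ℓ) with hx
  have hx0 : 0 ≤ x := by positivity
  have hmR : (m : ℝ) ≤ 2 ^ ℓ := by exact_mod_cast hm.le
  have hℓR : (ℓ : ℝ) ≤ 2 ^ ℓ := by exact_mod_cast (Nat.lt_two_pow_self (n := ℓ)).le
  have hmx : m * x ≤ b * (1 / (8 * b * L)) ^ ℓ := by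
    calc m * x ≤ 2 ^ ℓ * (b * c ^ (L * ℓ)) := by gcongr
      _ = b * (2 * c ^ L) ^ ℓ := by rw [mul_pow, pow_mul]; ring
      _ ≤ b * (1 / (8 * b * L)) ^ ℓ := by gcongr
  have hq0 : (0 : ℝ) ≤ 1 / (8 * b * L) := by positivity
  have hq1 : 1 / (8 * b * (L : ℝ)) ≤ 1 := by
    rw [div_le_one (by positivity)]
    nlinarith
  have hmx1 : m * x ≤ 1 := by
    calc m * x ≤ b * (1 / (8 * b * L)) ^ ℓ := hmx
      _ ≤ b * (1 / (8 * b * L)) ^ 1 := by
          apply mul_le_mul_of_nonneg_left _ (by positivity)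
          exact pow_le_pow_of_le_one hq0 hq1 hℓ
      _ = 1 / (8 * L) := by field_simp
      _ ≤ 1 := by rw [div_le_one (by positivity)]; linarith
  have hpow : (1 + x) ^ m - 1 ≤ 2 * (m * x) := by
    have h1 : (1 + x) ^ m ≤ Real.exp (m * x) := by
      rw [Real.exp_nat_mul]
      apply pow_le_pow_left₀ (by positivity)
      have := Real.add_one_le_exp x
      linarith
    have h2 := Real.abs_exp_sub_one_le (x := m * x) (by rw [abs_of_nonneg (by positivity)]; exact hmx1)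
    rw [abs_of_nonneg (by positivity : (0:ℝ) ≤ m * x)] at h2
    have h3 := le_abs_self (Real.exp (m * x) - 1)
    linarith
  calc ((L * ℓ : ℕ) : ℝ) * ((1 + x) ^ m - 1) ≤ ((L * ℓ : ℕ) : ℝ) * (2 * (b * (1 / (8 * b * L)) ^ ℓ)) := by
        apply mul_le_mul_of_nonneg_left _ (by positivity)
        linarith
    _ = 2 * b * L * (ℓ * (1 / (8 * b * L)) ^ ℓ) := by push_cast; ring
    _ ≤ 2 * b * L * (2 ^ ℓ * (1 / (8 * b * L)) ^ ℓ) := by gcongr
    _ = 2 * b * L * (1 / (4 * b * L)) ^ ℓ := by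
        rw [← mul_pow]
        congr 2
        field_simp
        norm_num
    _ ≤ 2 * b * L * (1 / (4 * b * L)) ^ 1 := by
        apply mul_le_mul_of_nonneg_left _ (by positivity)
        apply pow_le_pow_of_le_one (by positivity) _ hℓ
        rw [div_le_one (by positivity)]
        nlinarith
    _ = 1 / 2 := by field_simp; norm_num

theorem e_nat_mul (n : ℕ) (x : ℝ) : e (n * x) = e x ^ n := by
  rw [e, e, ← Complex.exp_nat_mul]
  congr 1
  push_cast
  ring

theorem e_eq_one_iff (x : ℝ) : e x = 1 ↔ ∃ n : ℤ, x = n := by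
  rw [e, Complex.exp_eq_one_iff]
  constructor
  · rintro ⟨n, hn⟩
    refine ⟨n, ?_⟩
    have hpi : (Real.pi : ℂ) ≠ 0 := by exact_mod_cast Real.pi_ne_zero
    have h2 : (2 * Real.pi * Complex.I : ℂ) ≠ 0 := by
      simp [Complex.I_ne_zero, Real.pi_ne_zero]
    have : ((x : ℝ) : ℂ) = n := by
      apply mul_left_cancel₀ h2
      linear_combination hn
    exact_mod_cast this
  · rintro ⟨n, rfl⟩
    exact ⟨n, by push_cast; ring⟩

theorem orth (q n : ℕ) (hq : 1 ≤ q) (h : ¬ q ∣ n) :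
    ∑ ξ ∈ range q, e (ξ * ((n : ℝ) / q)) = 0 := by
  have hqR : (0 : ℝ) < q := by exact_mod_cast hq
  have h1 : e ((n : ℝ) / q) ≠ 1 := by
    intro h1
    rw [e_eq_one_iff] at h1
    obtain ⟨k, hk⟩ := h1
    rw [div_eq_iff hqR.ne'] at hk
    have : (n : ℤ) = k * q := by exact_mod_cast hk
    apply h
    have h2 : (q : ℤ) ∣ n := ⟨k, by linarith⟩
    exact_mod_cast h2
  simp_rw [e_nat_mul]
  rw [geom_sum_eq h1, ← e_nat_mul]
  have : (q : ℝ) * ((n : ℝ) / q) = ((n : ℤ) : ℝ) := by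
    push_cast; field_simp
  rw [this, e_int]
  simp

end Pool.Agent.H87R3.DR
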