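import Pool.Agent.H87R3.DRKey

set_option autoImplicit false

namespace Pool.Agent.H87R3.DR

open Finset

theorem abs_cos_le (b : ℕ) (hb : 2 ≤ b) (x : ℝ)
    (hx : ∀ n : ℤ, 1 / (4 * (b : ℝ)) ≤ |x - (n : ℝ)|) :
    |Real.cos (Real.pi * x)| ≤ Real.cos (Real.pi / (4 * b)) := by
  have hpi := Real.pi_pos
  have hbR : (2 : ℝ) ≤ b := by exact_mod_cast hb
  set n := round x with hn
  have h1 := hx n
  have h2 : |x - n| ≤ 1 / 2 := abs_sub_round x
  have h3 : |Real.cos (Real.pi * x)| = |Real.cos (Real.pi * |x - n|)| := by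
    have e1 : Real.pi * x = Real.pi * (x - n) + n * Real.pi := by ring
    have e2 : Real.pi * |x - n| = |Real.pi * (x - n)| := by
      rw [abs_mul, abs_of_pos hpi]
    rw [e1, Real.cos_add_int_mul_pi, e2, Real.cos_abs, abs_mul, abs_zpow, abs_neg, abs_one,
      one_zpow, one_mul]
  rw [h3, abs_of_nonneg]
  · apply Real.cos_le_cos_of_nonneg_of_le_pi (by positivity)
    · nlinarith
    · have : Real.pi / (4 * b) = Real.pi * (1 / (4 * b)) := by ring
      rw [this]
      exact mul_le_mul_of_nonneg_left h1 hpi.le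
  · apply Real.cos_nonneg_of_neg_pi_div_two_le_of_le
    · have : 0 ≤ Real.pi * |x - n| := by positivity
      linarith
    · nlinarith

theorem prod_regroup (h : ℕ → ℝ) (m : ℕ) : ∀ R : ℕ,
    ∏ t ∈ range (R * m), h t = ∏ r ∈ range R, ∏ l ∈ range m, h (r * m + l) := by
  intro R
  induction R with
  | zero => simp
  | succ R ih => rw [Nat.succ_mul, Finset.prod_range_add, Finset.prod_range_succ, ih]

theorem prod_le_sum_pow (R : ℕ) (hR : 1 ≤ R) (a : ℕ → ℝ) (ha : ∀ r, 0 ≤ a r) :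
    ∏ r ∈ range R, a r ≤ ∑ r ∈ range R, a r ^ R := by
  obtain ⟨r0, hr0, hmax⟩ := Finset.exists_max_image (range R) a ⟨0, Finset.mem_range.2 (by omega)⟩
  calc ∏ r ∈ range R, a r ≤ ∏ _r ∈ range R, a r0 :=
        Finset.prod_le_prod (fun r _ => ha r) (fun r hr => hmax r hr)
    _ = a r0 ^ R := by simp
    _ ≤ ∑ r ∈ range R, a r ^ R :=
        Finset.single_le_sum (f := fun r => a r ^ R) (fun r _ => pow_nonneg (ha r) R) hr0

theorem round_sep (b m : ℕ) (hb : 2 ≤ b) (x y : ℝ) (k : ℤ)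
    (h : round ((b : ℝ) ^ m * x) - round ((b : ℝ) ^ m * y) = (b : ℤ) ^ m * k) :
    |x - y - k| ≤ 1 / (b : ℝ) ^ m := by
  have hbR : (2 : ℝ) ≤ b := by exact_mod_cast hb
  have hpos : (0 : ℝ) < (b : ℝ) ^ m := by positivity
  have h1 := abs_sub_round ((b : ℝ) ^ m * x)
  have h2 := abs_sub_round ((b : ℝ) ^ m * y)
  have h3 : ((round ((b : ℝ) ^ m * x) : ℝ)) - round ((b : ℝ) ^ m * y) = (b : ℝ) ^ m * k := by
    exact_mod_cast h
  rw [le_div_iff₀ hpos]
  calc |x - y - k| * (b : ℝ) ^ m = |(x - y - k) * (b : ℝ) ^ m| := by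
        rw [abs_mul, abs_of_pos hpos]
    _ = |((b : ℝ) ^ m * x - round ((b : ℝ) ^ m * x)) -
          ((b : ℝ) ^ m * y - round ((b : ℝ) ^ m * y))| := by
        congr 1
        linarith
    _ ≤ |(b : ℝ) ^ m * x - round ((b : ℝ) ^ m * x)| +
          |(b : ℝ) ^ m * y - round ((b : ℝ) ^ m * y)| := abs_sub _ _
    _ ≤ 1 := by linarith

/-- the product bound -/
theorem pb (b : ℕ) (hb : 2 ≤ b) (m R : ℕ) (hR : 1 ≤ R) {ι : Type} [DecidableEq ι] (s : Finset ι)
    (i0 : ι) (hi0 : i0 ∈ s) (f : ι → ℝ) (hf0 : f i0 = 0)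
    (hsep : ∀ r < R, ∀ i ∈ s, ∀ j ∈ s, i ≠ j → ∀ n : ℤ,
      1 / (b : ℝ) ^ m < |(b : ℝ) ^ (r * m) * (f i - f j) - n|) :
    ∑ i ∈ s.erase i0, ∏ t ∈ range (R * m), |Real.cos (Real.pi * ((b : ℝ) ^ t * f i))| ≤
      R * ((1 + b * (Real.cos (Real.pi / (4 * b))) ^ R) ^ m - 1) := by
  have hpi := Real.pi_pos
  have hbR : (2 : ℝ) ≤ b := by exact_mod_cast hb
  set c := Real.cos (Real.pi / (4 * b)) with hc
  have hc0 : 0 ≤ c := by
    apply Real.cos_nonneg_of_neg_pi_div_two_le_of_le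
    · have : 0 ≤ Real.pi / (4 * b) := by positivity
      linarith
    · apply div_le_div_of_nonneg_left hpi.le (by norm_num) (by linarith)
  set F : ℝ → ℝ := fun x => |Real.cos (Real.pi * x)| ^ R with hF
  have hF0 : ∀ x, 0 ≤ F x := fun x => by positivity
  have hF1 : ∀ x, F x ≤ 1 := fun x => pow_le_one₀ (abs_nonneg _) (Real.abs_cos_le_one _)
  have hFκ : ∀ x : ℝ, (∀ n : ℤ, 1 / (4 * (b : ℝ)) ≤ |x - (n : ℝ)|) → F x ≤ c ^ R := by
    intro x hx
    exact pow_le_pow_left₀ (abs_nonneg _) (abs_cos_le b hb x hx) R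
  have hr : ∀ r < R, ∑ i ∈ s.erase i0, ∏ l ∈ range m, F ((b : ℝ) ^ l * ((b : ℝ) ^ (r * m) * f i))
      ≤ (1 + b * c ^ R) ^ m - 1 := by
    intro r hr
    have h1 := key b hb (c ^ R) (by positivity) F hF0 hF1 hFκ m s
      (fun i => (b : ℝ) ^ (r * m) * f i) (by
        intro i hi j hj hd
        by_contra hne
        obtain ⟨k, hk⟩ := hd
        have h2 := round_sep b m hb _ _ k hk
        have h3 := hsep r hr i hi j hj hne k
        have e : (b : ℝ) ^ (r * m) * f i - (b : ℝ) ^ (r * m) * f j - k =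
          (b : ℝ) ^ (r * m) * (f i - f j) - k := by ring
        rw [e] at h2
        linarith)
    rw [← Finset.add_sum_erase s _ hi0] at h1
    have h4 : ∏ l ∈ range m, F ((b : ℝ) ^ l * ((b : ℝ) ^ (r * m) * f i0)) = 1 := by
      apply Finset.prod_eq_one
      intro l _
      simp [hF, hf0]
    rw [h4] at h1
    linarith
  calc ∑ i ∈ s.erase i0, ∏ t ∈ range (R * m), |Real.cos (Real.pi * ((b : ℝ) ^ t * f i))|
      = ∑ i ∈ s.erase i0, ∏ r ∈ range R, ∏ l ∈ range m,
          |Real.cos (Real.pi * ((b : ℝ) ^ (r * m + l) * f i))| := by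
        apply Finset.sum_congr rfl
        intro i _
        exact prod_regroup (fun t => |Real.cos (Real.pi * ((b : ℝ) ^ t * f i))|) m R
    _ ≤ ∑ i ∈ s.erase i0, ∑ r ∈ range R, (∏ l ∈ range m,
          |Real.cos (Real.pi * ((b : ℝ) ^ (r * m + l) * f i))|) ^ R := by
        apply Finset.sum_le_sum
        intro i _
        exact prod_le_sum_pow R hR _ (fun r => Finset.prod_nonneg (fun l _ => abs_nonneg _))
    _ = ∑ r ∈ range R, ∑ i ∈ s.erase i0, ∏ l ∈ range m,
          F ((b : ℝ) ^ l * ((b : ℝ) ^ (r * m) * f i)) := by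
        rw [Finset.sum_comm]
        apply Finset.sum_congr rfl
        intro r _
        apply Finset.sum_congr rfl
        intro i _
        rw [← Finset.prod_pow]
        apply Finset.prod_congr rfl
        intro l _
        rw [hF]
        simp only
        congr 4
        rw [pow_add]; ring
    _ ≤ ∑ _r ∈ range R, ((1 + b * c ^ R) ^ m - 1) := by
        apply Finset.sum_le_sum
        intro r hr'
        exact hr r (Finset.mem_range.1 hr')
    _ = R * ((1 + b * c ^ R) ^ m - 1) := by rw [Finset.sum_const, Finset.card_range, nsmul_eq_mul]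

/-- the character -/
noncomputable def e (x : ℝ) : ℂ := Complex.exp (2 * Real.pi * x * Complex.I)

theorem e_zero : e 0 = 1 := by simp [e]

theorem e_add (x y : ℝ) : e (x + y) = e x * e y := by
  rw [e, e, e, ← Complex.exp_add]
  congr 1
  push_cast
  ring

theorem e_int (n : ℤ) : e n = 1 := by
  rw [e, Complex.exp_eq_one_iff]
  exact ⟨n, by push_cast; ring⟩

theorem norm_e (x : ℝ) : ‖e x‖ = 1 := by
  have : (2 * Real.pi * x * Complex.I : ℂ) = ((2 * Real.pi * x : ℝ) : ℂ) * Complex.I := by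
    push_cast; ring
  rw [e, this, Complex.norm_exp_ofReal_mul_I]

theorem e_sum {ι : Type} (s : Finset ι) (f : ι → ℝ) : e (∑ i ∈ s, f i) = ∏ i ∈ s, e (f i) := by
  classical
  induction s using Finset.induction_on with
  | empty => simp [e_zero]
  | insert a s ha ih => rw [Finset.sum_insert ha, Finset.prod_insert ha, e_add, ih]

theorem norm_one_add_e (x : ℝ) : ‖1 + e x‖ = 2 * |Real.cos (Real.pi * x)| := by
  have h : 1 + e x = Complex.exp (((Real.pi * x : ℝ) : ℂ) * Complex.I) *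
      (2 * ((Real.cos (Real.pi * x) : ℝ) : ℂ)) := by
    rw [Complex.ofReal_cos, Complex.cos, e]
    have h2 : Complex.exp (((Real.pi * x : ℝ) : ℂ) * Complex.I) *
      Complex.exp (((Real.pi * x : ℝ) : ℂ) * Complex.I) =
        Complex.exp (2 * Real.pi * x * Complex.I) := by
      rw [← Complex.exp_add]; congr 1; push_cast; ring
    have h3 : Complex.exp (((Real.pi * x : ℝ) : ℂ) * Complex.I) *
      Complex.exp (-((Real.pi * x : ℝ) : ℂ) * Complex.I) = 1 := by
      rw [← Complex.exp_add]; simp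
    linear_combination -h2 - h3
  rw [h, norm_mul, Complex.norm_exp_ofReal_mul_I, one_mul, norm_mul, Complex.norm_real]
  simp

theorem sum_powerset (k : ℕ) (x : ℕ → ℝ) :
    ∑ I ∈ (range k).powerset, e (∑ i ∈ I, x i) = ∏ i ∈ range k, (1 + e (x i)) := by
  rw [Finset.prod_one_add]
  apply Finset.sum_congr rfl
  intro I _
  exact e_sum I x

theorem norm_sum_powerset (k : ℕ) (x : ℕ → ℝ) :
    ‖∑ I ∈ (range k).powerset, e (∑ i ∈ I, x i)‖ =
      2 ^ k * ∏ i ∈ range k, |Real.cos (Real.pi * x i)| := by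
  rw [sum_powerset, norm_prod]
  simp_rw [norm_one_add_e]
  rw [Finset.prod_mul_distrib]
  simp

end Pool.Agent.H87R3.DR
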