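import Mathlib

set_option autoImplicit false

namespace Pool.Agent.H87R3.DR

open Finset

/-- sieve over separated points -/
theorem key (b : ℕ) (hb : 2 ≤ b) (κ : ℝ) (hκ : 0 ≤ κ) (F : ℝ → ℝ) (hF0 : ∀ x, 0 ≤ F x)
    (hF1 : ∀ x, F x ≤ 1)
    (hFκ : ∀ x : ℝ, (∀ n : ℤ, 1 / (4 * (b : ℝ)) ≤ |x - (n : ℝ)|) → F x ≤ κ) :
    ∀ (m : ℕ) {ι : Type} (s : Finset ι) (z : ι → ℝ),
      (∀ i ∈ s, ∀ j ∈ s,
        ((b : ℤ) ^ m ∣ round ((b : ℝ) ^ m * z i) - round ((b : ℝ) ^ m * z j)) → i = j) →
      ∑ i ∈ s, ∏ l ∈ range m, F ((b : ℝ) ^ l * z i) ≤ (1 + b * κ) ^ m := by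
  intro m
  induction m with
  | zero =>
    intro ι s z hz
    have hc : s.card ≤ 1 := by
      rw [Finset.card_le_one]
      intro i hi j hj
      exact hz i hi j hj (by simp)
    simp only [Finset.range_zero, Finset.prod_empty, Finset.sum_const, pow_zero, nsmul_eq_mul, mul_one]
    exact_mod_cast hc
  | succ m ih =>
    intro ι s z hz
    classical
    have : NeZero b := ⟨by omega⟩
    have hbR : (2 : ℝ) ≤ b := by exact_mod_cast hb
    have hbpos : (0 : ℝ) < b := by linarith
    set B : ℤ := (b : ℤ) ^ m with hB
    have hBpos : 0 < B := by positivity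
    set w : ι → ℤ := fun i => round ((b : ℝ) ^ (m + 1) * z i) with hw
    set t : ι → ℤ := fun i => (2 * w i + B) / (2 * B) with ht
    set g : ι → ZMod b := fun i => ((t i : ℤ) : ZMod b) with hg
    rw [← Finset.sum_fiberwise s g]
    have hQ0 : (0 : ℝ) ≤ (1 + b * κ) ^ m := by positivity
    have hclass : ∀ c : ZMod b, ∑ i ∈ s with g i = c, ∏ l ∈ range (m + 1), F ((b : ℝ) ^ l * z i)
        ≤ (if c = 0 then 1 else κ) * (1 + b * κ) ^ m := by
      intro c
      have h1 : ∀ i ∈ s.filter (fun i => g i = c),
          ∏ l ∈ range (m + 1), F ((b : ℝ) ^ l * z i) ≤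
            (if c = 0 then 1 else κ) * ∏ l ∈ range m, F ((b : ℝ) ^ l * (b * z i)) := by
        intro i hi
        rw [Finset.mem_filter] at hi
        rw [Finset.prod_range_succ']
        have e1 : ∏ l ∈ range m, F ((b : ℝ) ^ (l + 1) * z i)
            = ∏ l ∈ range m, F ((b : ℝ) ^ l * (b * z i)) := by
          apply Finset.prod_congr rfl
          intro l _
          congr 1
          ring
        rw [e1, mul_comm]
        have hp0 : 0 ≤ ∏ l ∈ range m, F ((b : ℝ) ^ l * (b * z i)) :=
          Finset.prod_nonneg (fun l _ => hF0 _)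
        apply mul_le_mul_of_nonneg_right _ hp0
        simp only [pow_zero, one_mul]
        split_ifs with hc
        · exact hF1 _
        · apply hFκ
          intro n
          have htd : ¬ ((b : ℤ) ∣ t i) := by
            intro hd
            apply hc
            rw [← hi.2]
            exact (ZMod.intCast_zmod_eq_zero_iff_dvd _ _).2 hd
          have hne : t i - b * n ≠ 0 := by
            intro h
            apply htd
            exact ⟨n, by linarith⟩
          have hge : (1 : ℝ) ≤ |((t i : ℝ) - b * n)| := by
            have := Int.one_le_abs hne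
            have h2 : ((1 : ℤ) : ℝ) ≤ ((|t i - b * n| : ℤ) : ℝ) := by exact_mod_cast this
            push_cast at h2
            exact h2
          -- bounds on t
          have hd1 : 2 * B * t i ≤ 2 * w i + B := by
            have := Int.mul_ediv_self_le (x := 2 * w i + B) (k := 2 * B) (by positivity)
            simpa [ht] using this
          have hd2 : 2 * w i + B < 2 * B * t i + 2 * B := by
            have := Int.lt_mul_ediv_self_add (x := 2 * w i + B) (k := 2 * B) (by positivity)
            simpa [ht] using this
          have hwt : (|(w i : ℝ) - t i * B|) + 1 / 2 ≤ 3 / 4 * (B : ℝ) := by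
            rcases Nat.eq_zero_or_pos m with hm | hm
            · have hB1 : B = 1 := by rw [hB, hm]; simp
              have : w i = t i := by
                rw [hB1] at hd1 hd2
                omega
              rw [this, hB1]
              norm_num
            · have hB2 : (2 : ℤ) ≤ B := by
                rw [hB]
                calc (2 : ℤ) ≤ b := by exact_mod_cast hb
                  _ = (b : ℤ) ^ 1 := (pow_one _).symm
                  _ ≤ (b : ℤ) ^ m := pow_le_pow_right₀ (by exact_mod_cast (by omega : 1 ≤ b)) hm
              have hB2' : (2 : ℝ) ≤ (B : ℝ) := by exact_mod_cast hB2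
              have a1 : (2 : ℝ) * B * t i ≤ 2 * w i + B := by exact_mod_cast hd1
              have a2 : (2 : ℝ) * w i + B < 2 * B * t i + 2 * B := by exact_mod_cast hd2
              have : |(w i : ℝ) - t i * B| ≤ B / 2 := by
                rw [abs_le]; constructor <;> linarith
              linarith
          have hr : |(b : ℝ) ^ (m + 1) * z i - w i| ≤ 1 / 2 := abs_sub_round _
          have hBR : (B : ℝ) = (b : ℝ) ^ m := by rw [hB]; push_cast; ring
          have hBposR : (0 : ℝ) < B := by exact_mod_cast hBpos
          -- triangle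
          have hdecomp : ((t i : ℝ) - b * n) * B
              = ((b : ℝ) ^ (m + 1) * (z i - n)) - ((b : ℝ) ^ (m + 1) * z i - w i)
                - ((w i : ℝ) - t i * B) := by
            rw [hBR]; ring
          have htri : (B : ℝ) ≤ (b : ℝ) ^ (m + 1) * |z i - n| + 1 / 2 + |(w i : ℝ) - t i * B| := by
            calc (B : ℝ) ≤ |((t i : ℝ) - b * n)| * B := by nlinarith
              _ = |((t i : ℝ) - b * n) * B| := by rw [abs_mul, abs_of_pos hBposR]
              _ = |((b : ℝ) ^ (m + 1) * (z i - n)) - ((b : ℝ) ^ (m + 1) * z i - w i)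
                - ((w i : ℝ) - t i * B)| := by rw [hdecomp]
              _ ≤ |((b : ℝ) ^ (m + 1) * (z i - n)) - ((b : ℝ) ^ (m + 1) * z i - w i)|
                + |(w i : ℝ) - t i * B| := abs_sub _ _
              _ ≤ |((b : ℝ) ^ (m + 1) * (z i - n))| + |(b : ℝ) ^ (m + 1) * z i - w i|
                + |(w i : ℝ) - t i * B| := by
                  gcongr; exact abs_sub _ _
              _ ≤ (b : ℝ) ^ (m + 1) * |z i - n| + 1 / 2 + |(w i : ℝ) - t i * B| := by
                  rw [abs_mul, abs_of_pos (by positivity : (0:ℝ) < (b : ℝ) ^ (m + 1))]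
                  gcongr
          have h3 : (B : ℝ) / 4 ≤ (b : ℝ) ^ (m + 1) * |z i - n| := by linarith
          have h4 : (b : ℝ) ^ (m + 1) = B * b := by rw [hBR]; ring
          rw [h4] at h3
          rw [div_le_iff₀ (by positivity)]
          have h5 : (B : ℝ) * (1 / 4) ≤ B * (b * |z i - n|) := by linarith
          have h6 := le_of_mul_le_mul_left h5 hBposR
          linarith
      calc ∑ i ∈ s with g i = c, ∏ l ∈ range (m + 1), F ((b : ℝ) ^ l * z i)
          ≤ ∑ i ∈ s with g i = c,
              (if c = 0 then 1 else κ) * ∏ l ∈ range m, F ((b : ℝ) ^ l * (b * z i)) :=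
            Finset.sum_le_sum h1
        _ = (if c = 0 then 1 else κ) *
              ∑ i ∈ s with g i = c, ∏ l ∈ range m, F ((b : ℝ) ^ l * (b * z i)) := by
            rw [Finset.mul_sum]
        _ ≤ (if c = 0 then 1 else κ) * (1 + b * κ) ^ m := by
            apply mul_le_mul_of_nonneg_left _ (by split_ifs <;> positivity)
            apply ih (s.filter (fun i => g i = c)) (fun i => b * z i)
            intro i hi j hj hd
            rw [Finset.mem_filter] at hi hj
            have e2 : ∀ i, round ((b : ℝ) ^ m * (b * z i)) = w i := by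
              intro i
              rw [hw]
              congr 1
              ring
            rw [e2, e2] at hd
            obtain ⟨k, hk⟩ := hd
            have htk : t i = t j + k := by
              rw [ht]
              have : 2 * w i + B = (2 * w j + B) + k * (2 * B) := by
                rw [hB]; linarith
              simp only
              rw [this, Int.add_mul_ediv_right _ _ (by positivity)]
            have hbk : (b : ℤ) ∣ k := by
              have : g i = g j := by rw [hi.2, hj.2]
              rw [hg] at this
              have h7 := (ZMod.intCast_eq_intCast_iff_dvd_sub _ _ _).1 this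
              rw [htk] at h7
              obtain ⟨u, hu⟩ := h7
              exact ⟨-u, by linarith⟩
            apply hz i hi.1 j hj.1
            obtain ⟨u, hu⟩ := hbk
            change (b : ℤ) ^ (m + 1) ∣ w i - w j
            rw [hk, hu]
            exact ⟨u, by ring⟩
    calc ∑ c : ZMod b, ∑ i ∈ s with g i = c, ∏ l ∈ range (m + 1), F ((b : ℝ) ^ l * z i)
        ≤ ∑ c : ZMod b, (if c = 0 then 1 else κ) * (1 + b * κ) ^ m :=
          Finset.sum_le_sum (fun c _ => hclass c)
      _ = (∑ c : ZMod b, (if c = 0 then (1 : ℝ) else κ)) * (1 + b * κ) ^ m := by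
          rw [Finset.sum_mul]
      _ ≤ (1 + b * κ) * (1 + b * κ) ^ m := by
          apply mul_le_mul_of_nonneg_right _ hQ0
          calc ∑ c : ZMod b, (if c = 0 then (1 : ℝ) else κ)
              ≤ ∑ c : ZMod b, ((if c = 0 then (1 : ℝ) else 0) + κ) := by
                apply Finset.sum_le_sum
                intro c _
                split_ifs <;> linarith
            _ = 1 + b * κ := by
                rw [Finset.sum_add_distrib, Finset.sum_ite_eq' Finset.univ (0 : ZMod b)]
                simp [ZMod.card]
      _ = (1 + b * κ) ^ (m + 1) := by ring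

end Pool.Agent.H87R3.DR
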