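import Pool.Agent.H87R3.DRReal

set_option autoImplicit false

namespace Pool.Agent.H87R3.DR

open Finset

/-- number of digits used in the rational case -/
def k0 (b L m : ℕ) : ℕ := L * (Nat.log 2 m + 1) * m + m * b

/-- number of digits used in the real case -/
def kk (b L T : ℕ) : ℕ :=
  L * (Nat.log 2 (k0 b L (2 * T) + T) + 1) * (k0 b L (2 * T) + T)

theorem sum_lt (b k : ℕ) (hb : 2 ≤ b) (I : Finset ℕ) (hI : I ⊆ range k) :
    ∑ i ∈ I, b ^ i < b ^ k := by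
  calc ∑ i ∈ I, b ^ i ≤ ∑ i ∈ range k, b ^ i :=
        Finset.sum_le_sum_of_subset hI
    _ < b ^ k := Nat.geomSum_lt hb (fun i hi => Finset.mem_range.1 hi)

theorem sum_pos (b : ℕ) (hb : 2 ≤ b) (I : Finset ℕ) (hI : I.Nonempty) :
    1 ≤ ∑ i ∈ I, b ^ i := by
  obtain ⟨i, hi⟩ := hI
  calc 1 ≤ b ^ i := Nat.one_le_pow _ _ (by omega)
    _ ≤ ∑ i ∈ I, b ^ i := Finset.single_le_sum (f := fun i => b ^ i) (fun _ _ => Nat.zero_le _) hi

theorem ratT (b : ℕ) (hb : 2 ≤ b) (L : ℕ) (hL : Good b L) (Q m : ℕ) (hQ : 1 ≤ Q)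
    (hQm : Q < b ^ m) :
    ∃ I ⊆ range (k0 b L m), I.Nonempty ∧ Q ∣ ∑ i ∈ I, b ^ i :=
  rcg b hb L hL Q hQ m (Nat.log 2 m + 1) hQm (by omega) (Nat.lt_pow_succ_log_self (by norm_num) m)

theorem realT (b : ℕ) (hb : 2 ≤ b) (L : ℕ) (hL : Good b L) (γ : ℝ) (T : ℕ) (hT : 1 ≤ T) :
    ∃ I ⊆ range (kk b L T), I.Nonempty ∧ ∃ n : ℤ,
      |(∑ i ∈ I, (b : ℝ) ^ i) * γ - n| ≤ 1 / (b : ℝ) ^ T := by
  set k := k0 b L (2 * T) with hk
  set m := k + T with hm
  set ℓ := Nat.log 2 m + 1 with hℓ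
  have hkk : kk b L T = L * ℓ * m := rfl
  rw [hkk]
  have hbR : (2 : ℝ) ≤ b := by exact_mod_cast hb
  have hL1 := hL.1
  by_cases hsep : ∀ r < L * ℓ, ∀ η : ℕ, 1 ≤ η → η < (b ^ T) ^ 2 → ∀ n : ℤ,
      1 / (b : ℝ) ^ m < |η * ((b : ℝ) ^ (r * m) * γ) - n|
  · have hbig : 4 * (b ^ T) ^ 2 < 2 ^ (L * ℓ * m) := by
      have hb2 : b ≤ 2 ^ b := (Nat.lt_two_pow_self (n := b)).le
      have h1 : (b ^ T) ^ 2 ≤ 2 ^ (2 * T * b) := by
        calc (b ^ T) ^ 2 = b ^ (2 * T) := by rw [← pow_mul]; ring_nf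
          _ ≤ (2 ^ b) ^ (2 * T) := Nat.pow_le_pow_left hb2 _
          _ = 2 ^ (2 * T * b) := by rw [← pow_mul]; ring_nf
      calc 4 * (b ^ T) ^ 2 ≤ 2 ^ 2 * 2 ^ (2 * T * b) := by
            norm_num; exact h1
        _ = 2 ^ (2 + 2 * T * b) := by rw [pow_add]
        _ < 2 ^ (L * ℓ * m) := by
          apply Nat.pow_lt_pow_right (by norm_num)
          have h2 : 2 * T ≤ L * (Nat.log 2 (2 * T) + 1) * (2 * T) := by
            apply Nat.le_mul_of_pos_left
            positivity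
          have h3 : m ≤ L * ℓ * m := by
            apply Nat.le_mul_of_pos_left
            positivity
          have h4 : k = L * (Nat.log 2 (2 * T) + 1) * (2 * T) + (2 * T) * b := rfl
          omega
    obtain ⟨I, h1, h2, n, h3⟩ := caseA b hb L hL γ (b ^ T) m ℓ (Nat.one_le_pow _ _ (by omega))
      (by omega) (Nat.lt_pow_succ_log_self (by norm_num) m) hbig hsep
    refine ⟨I, h1, h2, n, ?_⟩
    push_cast at h3
    exact h3
  · push Not at hsep
    obtain ⟨r, hr, η, hη1, hη2, n, hn⟩ := hsep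
    have hη3 : η < b ^ (2 * T) := by
      calc η < (b ^ T) ^ 2 := hη2
        _ = b ^ (2 * T) := by rw [← pow_mul]; ring_nf
    obtain ⟨I, h1, h2, t, h3⟩ := ratT b hb L hL η (2 * T) hη1 hη3
    refine ⟨I.map (addLeftEmbedding (r * m)), ?_, h2.map, t * n, ?_⟩
    · refine (shift_subset (r * m) _ I h1).trans ?_
      apply Finset.range_subset_range.2
      calc r * m + k ≤ r * m + m := by omega
        _ = (r + 1) * m := by ring
        _ ≤ L * ℓ * m := Nat.mul_le_mul_right _ hr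
    · have h4 : (∑ i ∈ I.map (addLeftEmbedding (r * m)), (b : ℝ) ^ i) =
          (b : ℝ) ^ (r * m) * (η * t) := by
        have := sum_shift b (r * m) I
        have h5 : (((∑ i ∈ I.map (addLeftEmbedding (r * m)), b ^ i : ℕ)) : ℝ) =
            ((b ^ (r * m) * (η * t) : ℕ) : ℝ) := by rw [this, h3]
        push_cast at h5
        exact h5
      have hlt := sum_lt b k hb I h1
      have htlt : (t : ℝ) ≤ (b : ℝ) ^ k := by
        have : t ≤ b ^ k := by
          calc t ≤ η * t := Nat.le_mul_of_pos_left _ hη1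
            _ ≤ b ^ k := by rw [← h3]; exact hlt.le
        exact_mod_cast this
      rw [h4]
      have e1 : (b : ℝ) ^ (r * m) * (η * t) * γ - ((t : ℤ) * n : ℤ) =
          t * (η * ((b : ℝ) ^ (r * m) * γ) - n) := by push_cast; ring
      push_cast at e1 ⊢
      rw [e1, abs_mul, abs_of_nonneg (by positivity : (0 : ℝ) ≤ t)]
      calc (t : ℝ) * |η * ((b : ℝ) ^ (r * m) * γ) - n| ≤ (b : ℝ) ^ k * (1 / (b : ℝ) ^ m) := by
            gcongr
        _ = 1 / (b : ℝ) ^ T := by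
            rw [hm, pow_add]; field_simp

/-- log base 2 facts -/
theorem natlog_le (m : ℕ) (hm : 1 ≤ m) : (Nat.log 2 m : ℝ) ≤ Real.log m / Real.log 2 := by
  have h1 : (2 : ℝ) ^ (Nat.log 2 m) ≤ m := by
    exact_mod_cast Nat.pow_log_le_self 2 (by omega)
  have hl2 : 0 < Real.log 2 := Real.log_pos (by norm_num)
  rw [le_div_iff₀ hl2]
  have := Real.log_le_log (by positivity) h1
  rw [Real.log_pow] at this
  exact this

end Pool.Agent.H87R3.DR
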