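import Pool.Agent.H87R3.DRCases

set_option autoImplicit false

namespace Pool.Agent.H87R3.DR

open Finset

/-- coprime modulus -/
theorem rc (b : ℕ) (hb : 2 ≤ b) (L : ℕ) (hL : Good b L) (q : ℕ) (hq : 1 ≤ q)
    (hco : Nat.Coprime q b) (m ℓ : ℕ) (hqm : q < b ^ m) (hℓ : 1 ≤ ℓ) (hm : m < 2 ^ ℓ)
    (hk : 2 * q < 2 ^ (L * ℓ * m)) :
    ∃ I ⊆ range (L * ℓ * m), I.Nonempty ∧ q ∣ ∑ i ∈ I, b ^ i := by
  by_contra hcon
  push Not at hcon
  set k := L * ℓ * m with hkdef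
  have hqR : (1 : ℝ) ≤ q := by exact_mod_cast hq
  have hbR : (2 : ℝ) ≤ b := by exact_mod_cast hb
  have hL1 := hL.1
  have hR1 : 1 ≤ L * ℓ := Nat.one_le_iff_ne_zero.2 (by positivity)
  -- total sum
  set Tot : ℂ := ∑ ξ ∈ range q, ∑ I ∈ (range k).powerset,
    e (∑ i ∈ I, (b : ℝ) ^ i * ((ξ : ℝ) / q)) with hTot
  have h1 : Tot = q := by
    rw [hTot, Finset.sum_comm]
    rw [← Finset.add_sum_erase _ _ (Finset.empty_mem_powerset (range k))]
    have h2 : ∑ I ∈ (range k).powerset.erase ∅, ∑ ξ ∈ range q,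
        e (∑ i ∈ I, (b : ℝ) ^ i * ((ξ : ℝ) / q)) = 0 := by
      apply Finset.sum_eq_zero
      intro I hI
      rw [Finset.mem_erase, Finset.mem_powerset] at hI
      have h3 := hcon I hI.2 (Finset.nonempty_iff_ne_empty.2 hI.1)
      rw [← orth q _ hq h3]
      apply Finset.sum_congr rfl
      intro ξ _
      congr 1
      rw [← Finset.sum_mul]
      push_cast
      ring
    rw [h2]
    simp [e_zero]
  have hpb := pb b hb m (L * ℓ) hR1 (range q) 0 (Finset.mem_range.2 hq)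
    (fun ξ => (ξ : ℝ) / q) (by simp) (by
      intro r hr i hi j hj hij n
      rw [Finset.mem_range] at hi hj
      have hne : ((b : ℤ) ^ (r * m) * ((i : ℤ) - j) - n * q) ≠ 0 := by
        intro h0
        have hd : (q : ℤ) ∣ (b : ℤ) ^ (r * m) * ((i : ℤ) - j) := ⟨n, by linarith⟩
        have hc : IsCoprime (q : ℤ) ((b : ℤ) ^ (r * m)) := by
          apply IsCoprime.pow_right
          exact Nat.isCoprime_iff_coprime.2 hco
        have hd2 := hc.dvd_of_dvd_mul_left hd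
        have h5 : ((i : ℤ) - j) ≠ 0 := by
          intro h; apply hij; omega
        have h6 := Int.le_of_dvd (abs_pos.2 h5) ((dvd_abs _ _).2 hd2)
        have h7 : |((i : ℤ) - j)| < q := by
          rw [abs_lt]; constructor <;> omega
        omega
      have hge := Int.one_le_abs hne
      have hgeR : (1 : ℝ) ≤ |(b : ℝ) ^ (r * m) * ((i : ℝ) - j) - n * q| := by
        have : ((1 : ℤ) : ℝ) ≤ ((|(b : ℤ) ^ (r * m) * ((i : ℤ) - j) - n * q| : ℤ) : ℝ) := by
          exact_mod_cast hge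
        push_cast at this
        exact this
      have hq0 : (0 : ℝ) < q := by linarith
      have heq : |(b : ℝ) ^ (r * m) * ((i : ℝ) / q - (j : ℝ) / q) - n| =
          |(b : ℝ) ^ (r * m) * ((i : ℝ) - j) - n * q| / q := by
        rw [← abs_of_pos hq0, ← abs_div, abs_of_pos hq0]
        congr 1
        field_simp
      rw [heq]
      have hqm' : (q : ℝ) < (b : ℝ) ^ m := by exact_mod_cast hqm
      calc 1 / (b : ℝ) ^ m < 1 / q := one_div_lt_one_div_of_lt hq0 hqm'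
        _ ≤ _ := by gcongr)
  have hsmall := hL.2.2 ℓ m hℓ hm
  have h4 : ‖Tot - 2 ^ k‖ ≤ 2 ^ k * (1 / 2) := by
    have h5 : Tot - 2 ^ k = ∑ ξ ∈ (range q).erase 0, ∑ I ∈ (range k).powerset,
        e (∑ i ∈ I, (b : ℝ) ^ i * ((ξ : ℝ) / q)) := by
      rw [hTot, ← Finset.add_sum_erase _ _ (Finset.mem_range.2 hq)]
      simp [e_zero]
    rw [h5]
    calc ‖∑ ξ ∈ (range q).erase 0, ∑ I ∈ (range k).powerset,
        e (∑ i ∈ I, (b : ℝ) ^ i * ((ξ : ℝ) / q))‖
        ≤ ∑ ξ ∈ (range q).erase 0, ‖∑ I ∈ (range k).powerset,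
        e (∑ i ∈ I, (b : ℝ) ^ i * ((ξ : ℝ) / q))‖ := norm_sum_le _ _
      _ = ∑ ξ ∈ (range q).erase 0, 2 ^ k * ∏ i ∈ range k,
          |Real.cos (Real.pi * ((b : ℝ) ^ i * ((ξ : ℝ) / q)))| := by
          apply Finset.sum_congr rfl
          intro ξ _
          exact norm_sum_powerset k (fun i => (b : ℝ) ^ i * ((ξ : ℝ) / q))
      _ = 2 ^ k * ∑ ξ ∈ (range q).erase 0, ∏ i ∈ range k,
          |Real.cos (Real.pi * ((b : ℝ) ^ i * ((ξ : ℝ) / q)))| := by rw [Finset.mul_sum]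
      _ ≤ 2 ^ k * (1 / 2) := by
          apply mul_le_mul_of_nonneg_left _ (by positivity)
          exact hpb.trans hsmall
  rw [h1] at h4
  have h6 : ‖(q : ℂ) - 2 ^ k‖ = |(q : ℝ) - 2 ^ k| := by
    rw [← Real.norm_eq_abs, ← Complex.norm_real]
    congr 1
    push_cast
    ring
  rw [h6] at h4
  have h7 : (2 : ℝ) * q < 2 ^ k := by exact_mod_cast hk
  rw [abs_sub_comm] at h4
  have h8 := le_abs_self ((2 : ℝ) ^ k - q)
  linarith

theorem split_coprime (b : ℕ) (hb : 2 ≤ b) : ∀ Q : ℕ, 1 ≤ Q →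
    ∃ s Q2 : ℕ, s ≤ Nat.log 2 Q ∧ 1 ≤ Q2 ∧ Q2 ≤ Q ∧ Nat.Coprime Q2 b ∧ Q ∣ b ^ s * Q2 := by
  intro Q
  induction Q using Nat.strong_induction_on with
  | _ Q ih =>
    intro hQ
    by_cases hc : Nat.Coprime Q b
    · exact ⟨0, Q, Nat.zero_le _, hQ, le_rfl, hc, by simp⟩
    · set d := Nat.gcd Q b with hd
      have hd1 : d ≠ 1 := hc
      have hd0 : 0 < d := Nat.gcd_pos_of_pos_left _ hQ
      have hd2 : 2 ≤ d := by omega
      obtain ⟨Q', hQ'⟩ := Nat.gcd_dvd_left Q b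
      obtain ⟨b', hb'⟩ := Nat.gcd_dvd_right Q b
      rw [← hd] at hQ' hb'
      have hQ'1 : 1 ≤ Q' := by
        rcases Nat.eq_zero_or_pos Q' with h | h
        · rw [h] at hQ'; omega
        · exact h
      have hlt : Q' < Q := by nlinarith
      obtain ⟨s, Q2, h1, h2, h3, h4, h5⟩ := ih Q' hlt hQ'1
      refine ⟨s + 1, Q2, ?_, h2, h3.trans hlt.le, h4, ?_⟩
      · calc s + 1 ≤ Nat.log 2 Q' + 1 := by omega
          _ = Nat.log 2 (Q' * 2) := (Nat.log_mul_base (by norm_num) (by omega)).symm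
          _ ≤ Nat.log 2 Q := Nat.log_mono_right (by nlinarith)
      · have h6 : Q ∣ b * (b ^ s * Q2) := by
          calc Q = d * Q' := hQ'
            _ ∣ b * (b ^ s * Q2) := Nat.mul_dvd_mul ⟨b', hb'⟩ h5
        rw [pow_succ]
        calc Q ∣ b * (b ^ s * Q2) := h6
          _ = b ^ s * b * Q2 := by ring

theorem sum_shift (b s : ℕ) (I : Finset ℕ) :
    ∑ i ∈ I.map (addLeftEmbedding s), b ^ i = b ^ s * ∑ i ∈ I, b ^ i := by
  rw [Finset.sum_map, Finset.mul_sum]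
  apply Finset.sum_congr rfl
  intro i _
  simp [pow_add]

theorem shift_subset (s k : ℕ) (I : Finset ℕ) (h : I ⊆ range k) :
    I.map (addLeftEmbedding s) ⊆ range (s + k) := by
  intro x hx
  rw [Finset.mem_map] at hx
  obtain ⟨y, hy, rfl⟩ := hx
  have := Finset.mem_range.1 (h hy)
  simp only [addLeftEmbedding_apply, Finset.mem_range]
  omega

/-- arbitrary modulus -/
theorem rcg (b : ℕ) (hb : 2 ≤ b) (L : ℕ) (hL : Good b L) (Q : ℕ) (hQ : 1 ≤ Q)
    (m ℓ : ℕ) (hQm : Q < b ^ m) (hℓ : 1 ≤ ℓ) (hm : m < 2 ^ ℓ) :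
    ∃ I ⊆ range (L * ℓ * m + m * b), I.Nonempty ∧ Q ∣ ∑ i ∈ I, b ^ i := by
  obtain ⟨s, Q2, h1, h2, h3, h4, h5⟩ := split_coprime b hb Q hQ
  have hm1 : 1 ≤ m := by
    rcases Nat.eq_zero_or_pos m with h | h
    · rw [h] at hQm; simp at hQm; omega
    · exact h
  have hb2 : b ≤ 2 ^ b := (Nat.lt_two_pow_self (n := b)).le
  have hbm : b ^ m ≤ 2 ^ (b * m) := by
    rw [pow_mul]; exact Nat.pow_le_pow_left hb2 m
  have hk : 2 * Q2 < 2 ^ (L * ℓ * m) := by
    have hL2 := hL.2.1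
    calc 2 * Q2 ≤ 2 * Q := by omega
      _ < 2 * b ^ m := by omega
      _ ≤ 2 ^ 1 * 2 ^ (b * m) := by
          rw [pow_one]; exact Nat.mul_le_mul_left 2 hbm
      _ = 2 ^ (1 + b * m) := by rw [pow_add]
      _ ≤ 2 ^ (L * ℓ * m) := by
          apply Nat.pow_le_pow_right (by norm_num)
          calc 1 + b * m ≤ (b + 1) * m := by nlinarith
            _ ≤ L * ℓ * m := by
              apply Nat.mul_le_mul_right
              calc b + 1 ≤ L := hL2
                _ ≤ L * ℓ := Nat.le_mul_of_pos_right _ (by omega)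
  obtain ⟨I, hI1, hI2, hI3⟩ := rc b hb L hL Q2 h2 h4 m ℓ (lt_of_le_of_lt h3 hQm) hℓ hm hk
  refine ⟨I.map (addLeftEmbedding s), ?_, hI2.map, ?_⟩
  · refine (shift_subset s _ I hI1).trans ?_
    apply Finset.range_subset_range.2
    have : s ≤ m * b := by
      calc s ≤ Nat.log 2 Q := h1
        _ ≤ Nat.log 2 (2 ^ (b * m)) := Nat.log_mono_right (by omega)
        _ = b * m := Nat.log_pow (by norm_num) _
        _ = m * b := by ring
    omega
  · rw [sum_shift]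
    exact h5.trans (Nat.mul_dvd_mul_left _ hI3)

end Pool.Agent.H87R3.DR
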