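import Pool.Agent.H87R3.DRRat

set_option autoImplicit false

namespace Pool.Agent.H87R3.DR

open Finset

/-- bound for the geometric exponential sum -/
theorem geom_bound (M : ℕ) (x δ : ℝ) (hδ : 0 < δ) (hx : ∀ n : ℤ, δ < |x - n|) :
    ‖∑ j ∈ range M, e (j * x)‖ ≤ 1 / (2 * δ) := by
  have h1 : e x ≠ 1 := by
    intro h
    rw [e_eq_one_iff] at h
    obtain ⟨n, hn⟩ := h
    have := hx n
    rw [hn] at this
    simp at this
    linarith
  simp_rw [e_nat_mul]
  rw [geom_sum_eq h1, norm_div]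
  have hnum : ‖e x ^ M - 1‖ ≤ 2 := by
    calc ‖e x ^ M - 1‖ ≤ ‖e x ^ M‖ + ‖(1 : ℂ)‖ := norm_sub_le _ _
      _ = 2 := by rw [norm_pow, norm_e]; norm_num
  have hden : 4 * δ ≤ ‖e x - 1‖ := by
    have h2 : ‖e x - 1‖ = ‖1 + e (x + 1 / 2)‖ := by
      have : e (x + 1 / 2) = - e x := by
        rw [e_add]
        have : e (1 / 2) = -1 := by
          rw [e]
          have : (2 * Real.pi * ((1 / 2 : ℝ) : ℂ) * Complex.I : ℂ) = Real.pi * Complex.I := by
            push_cast; ring
          rw [this, Complex.exp_pi_mul_I]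
        rw [this]; ring
      rw [this, ← norm_neg]
      congr 1
      ring
    rw [h2, norm_one_add_e]
    set n := round x with hn
    have h3 := hx n
    have h4 : |x - n| ≤ 1 / 2 := abs_sub_round x
    have hpi := Real.pi_pos
    have h5 : |Real.cos (Real.pi * (x + 1 / 2))| = |Real.sin (Real.pi * |x - n|)| := by
      have e1 : Real.pi * (x + 1 / 2) = (Real.pi * (x - n) + Real.pi / 2) + n * Real.pi := by ring
      rw [e1, Real.cos_add_int_mul_pi, Real.cos_add_pi_div_two, abs_mul, abs_zpow, abs_neg,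
        abs_one, one_zpow, one_mul, abs_neg]
      rcases abs_cases (x - n) with ⟨h, _⟩ | ⟨h, _⟩
      · rw [h]
      · rw [h, mul_neg, Real.sin_neg, abs_neg]
    rw [h5]
    have h6 : 2 / Real.pi * (Real.pi * |x - n|) ≤ Real.sin (Real.pi * |x - n|) :=
      Real.mul_le_sin (by positivity) (by nlinarith)
    have h7 : 2 / Real.pi * (Real.pi * |x - n|) = 2 * |x - n| := by field_simp
    have h8 := le_abs_self (Real.sin (Real.pi * |x - n|))
    linarith
  have hpos : 0 < ‖e x - 1‖ := lt_of_lt_of_le (by linarith) hden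
  rw [div_le_div_iff₀ hpos (by positivity)]
  nlinarith

theorem conj_e (x : ℝ) : (starRingEnd ℂ) (e x) = e (-x) := by
  have h1 : (2 * Real.pi * x * Complex.I : ℂ) = ((2 * Real.pi * x : ℝ) : ℂ) * Complex.I := by
    push_cast; ring
  rw [e, e, ← Complex.exp_conj, h1, map_mul, Complex.conj_ofReal, Complex.conj_I]
  congr 1
  push_cast
  ring

theorem caseA (b : ℕ) (hb : 2 ≤ b) (L : ℕ) (hL : Good b L) (γ : ℝ) (B m ℓ : ℕ) (hB : 1 ≤ B)
    (hℓ : 1 ≤ ℓ) (hm : m < 2 ^ ℓ) (hk : 4 * B ^ 2 < 2 ^ (L * ℓ * m))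
    (hsep : ∀ r < L * ℓ, ∀ η : ℕ, 1 ≤ η → η < B ^ 2 → ∀ n : ℤ,
      1 / (b : ℝ) ^ m < |η * ((b : ℝ) ^ (r * m) * γ) - n|) :
    ∃ I ⊆ range (L * ℓ * m), I.Nonempty ∧ ∃ n : ℤ,
      |(∑ i ∈ I, (b : ℝ) ^ i) * γ - n| ≤ 1 / B := by
  by_contra hcon
  push Not at hcon
  set k := L * ℓ * m with hkdef
  set M := B ^ 2 with hM
  have hM1 : 1 ≤ M := Nat.one_le_pow _ _ hB
  have hL1 := hL.1
  have hR1 : 1 ≤ L * ℓ := Nat.one_le_iff_ne_zero.2 (by positivity)
  have hBR : (1 : ℝ) ≤ B := by exact_mod_cast hB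
  have hMR : (M : ℝ) = (B : ℝ) ^ 2 := by rw [hM]; push_cast; ring
  set X : Finset ℕ → ℝ := fun I => (∑ i ∈ I, (b : ℝ) ^ i) * γ with hX
  set S : ℝ := ∑ I ∈ (range k).powerset, ‖∑ j ∈ range M, e (j * X I)‖ ^ 2 with hS
  -- upper bound
  have hup : S ≤ (M : ℝ) ^ 2 + 2 ^ k * (M / 4) := by
    rw [hS, ← Finset.add_sum_erase _ _ (Finset.empty_mem_powerset (range k))]
    have h1 : ‖∑ j ∈ range M, e (j * X ∅)‖ ^ 2 = (M : ℝ) ^ 2 := by
      simp [hX, e_zero]
    have h2 : ∑ I ∈ (range k).powerset.erase ∅, ‖∑ j ∈ range M, e (j * X I)‖ ^ 2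
        ≤ 2 ^ k * (M / 4) := by
      calc ∑ I ∈ (range k).powerset.erase ∅, ‖∑ j ∈ range M, e (j * X I)‖ ^ 2
          ≤ ∑ _I ∈ (range k).powerset.erase ∅, ((M : ℝ) / 4) := by
            apply Finset.sum_le_sum
            intro I hI
            rw [Finset.mem_erase, Finset.mem_powerset] at hI
            have h3 := hcon I hI.2 (Finset.nonempty_iff_ne_empty.2 hI.1)
            have h4 := geom_bound M (X I) (1 / B) (by positivity) h3
            calc ‖∑ j ∈ range M, e (j * X I)‖ ^ 2 ≤ (1 / (2 * (1 / (B : ℝ)))) ^ 2 := by gcongr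
              _ = (M : ℝ) / 4 := by rw [hMR]; field_simp; norm_num
        _ ≤ ∑ _I ∈ (range k).powerset, ((M : ℝ) / 4) := by
            apply Finset.sum_le_sum_of_subset_of_nonneg (Finset.erase_subset _ _)
            intros; positivity
        _ = 2 ^ k * (M / 4) := by simp
    linarith
  -- lower bound
  have hexp : (S : ℂ) = ∑ j' ∈ range M, ∑ j ∈ range M, ∑ I ∈ (range k).powerset,
      e (∑ i ∈ I, (b : ℝ) ^ i * (((j : ℝ) - j') * γ)) := by
    rw [hS]
    push_cast
    have h1 : ∀ I ∈ (range k).powerset, ((‖∑ j ∈ range M, e (j * X I)‖ : ℂ)) ^ 2 =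
        ∑ j' ∈ range M, ∑ j ∈ range M, e (∑ i ∈ I, (b : ℝ) ^ i * (((j : ℝ) - j') * γ)) := by
      intro I _
      rw [← Complex.mul_conj', map_sum, Finset.mul_sum]
      apply Finset.sum_congr rfl
      intro j' _
      rw [Finset.sum_mul]
      apply Finset.sum_congr rfl
      intro j _
      rw [conj_e, ← e_add]
      congr 1
      rw [hX, ← Finset.sum_mul]
      ring
    rw [Finset.sum_congr rfl h1, Finset.sum_comm]
    apply Finset.sum_congr rfl
    intro j' _
    rw [Finset.sum_comm]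
  have hlow : ‖(S : ℂ) - M * 2 ^ k‖ ≤ M * (2 ^ k * (1 / 2)) := by
    have h1 : (S : ℂ) - M * 2 ^ k = ∑ j' ∈ range M, ∑ j ∈ (range M).erase j',
        ∑ I ∈ (range k).powerset, e (∑ i ∈ I, (b : ℝ) ^ i * (((j : ℝ) - j') * γ)) := by
      rw [hexp]
      have h2 : ∀ j' ∈ range M, ∑ j ∈ range M, ∑ I ∈ (range k).powerset,
          e (∑ i ∈ I, (b : ℝ) ^ i * (((j : ℝ) - j') * γ)) = 2 ^ k +
          ∑ j ∈ (range M).erase j', ∑ I ∈ (range k).powerset,
            e (∑ i ∈ I, (b : ℝ) ^ i * (((j : ℝ) - j') * γ)) := by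
        intro j' hj'
        rw [← Finset.add_sum_erase _ _ hj']
        simp [e_zero]
      rw [Finset.sum_congr rfl h2, Finset.sum_add_distrib]
      simp
    rw [h1]
    calc ‖∑ j' ∈ range M, ∑ j ∈ (range M).erase j',
        ∑ I ∈ (range k).powerset, e (∑ i ∈ I, (b : ℝ) ^ i * (((j : ℝ) - j') * γ))‖
        ≤ ∑ j' ∈ range M, ‖∑ j ∈ (range M).erase j',
          ∑ I ∈ (range k).powerset, e (∑ i ∈ I, (b : ℝ) ^ i * (((j : ℝ) - j') * γ))‖ :=
          norm_sum_le _ _
      _ ≤ ∑ _j' ∈ range M, 2 ^ k * (1 / 2 : ℝ) := by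
          apply Finset.sum_le_sum
          intro j' hj'
          have hpb := pb b hb m (L * ℓ) hR1 (range M) j' hj'
            (fun j => ((j : ℝ) - j') * γ) (by simp) (by
              intro r hr i hi j hj hij n
              rw [Finset.mem_range] at hi hj
              have e1 : (b : ℝ) ^ (r * m) * (((i : ℝ) - j') * γ - ((j : ℝ) - j') * γ) - n =
                ((i : ℝ) - j) * ((b : ℝ) ^ (r * m) * γ) - n := by ring
              rw [e1]
              rcases lt_or_gt_of_ne hij with h | h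
              · have h3 := hsep r hr (j - i) (by omega) (by omega) (-n)
                rw [Nat.cast_sub h.le] at h3
                calc 1 / (b : ℝ) ^ m < _ := h3
                  _ = |-(((i : ℝ) - j) * ((b : ℝ) ^ (r * m) * γ) - n)| := by
                    congr 1
                    push_cast
                    ring
                  _ = _ := abs_neg _
              · have h3 := hsep r hr (i - j) (by omega) (by omega) n
                rw [Nat.cast_sub h.le] at h3
                exact h3)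
          have hsmall := hL.2.2 ℓ m hℓ hm
          calc ‖∑ j ∈ (range M).erase j', ∑ I ∈ (range k).powerset,
                e (∑ i ∈ I, (b : ℝ) ^ i * (((j : ℝ) - j') * γ))‖
              ≤ ∑ j ∈ (range M).erase j', ‖∑ I ∈ (range k).powerset,
                e (∑ i ∈ I, (b : ℝ) ^ i * (((j : ℝ) - j') * γ))‖ := norm_sum_le _ _
            _ = ∑ j ∈ (range M).erase j', 2 ^ k * ∏ i ∈ range k,
                |Real.cos (Real.pi * ((b : ℝ) ^ i * (((j : ℝ) - j') * γ)))| := by
                apply Finset.sum_congr rfl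
                intro j _
                exact norm_sum_powerset k (fun i => (b : ℝ) ^ i * (((j : ℝ) - j') * γ))
            _ = 2 ^ k * ∑ j ∈ (range M).erase j', ∏ i ∈ range k,
                |Real.cos (Real.pi * ((b : ℝ) ^ i * (((j : ℝ) - j') * γ)))| := by
                rw [Finset.mul_sum]
            _ ≤ 2 ^ k * (1 / 2) := by
                apply mul_le_mul_of_nonneg_left _ (by positivity)
                exact hpb.trans hsmall
      _ = M * (2 ^ k * (1 / 2)) := by
          rw [Finset.sum_const, Finset.card_range, nsmul_eq_mul]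
  have h6 : ‖(S : ℂ) - M * 2 ^ k‖ = |S - M * 2 ^ k| := by
    rw [← Real.norm_eq_abs, ← Complex.norm_real]
    congr 1
    push_cast
    ring
  rw [h6, abs_sub_comm] at hlow
  have h8 := le_abs_self ((M : ℝ) * 2 ^ k - S)
  have hk' : (4 : ℝ) * M < 2 ^ k := by exact_mod_cast hk
  have hMR1 : (1 : ℝ) ≤ M := by exact_mod_cast hM1
  nlinarith

end Pool.Agent.H87R3.DR
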