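import Mathlib

set_option autoImplicit false
set_option linter.unusedTactic false
set_option linter.unusedSimpArgs false
set_option linter.unreachableTactic false

/-! A group generated by `x`, `y` with `x^2 = y^3 = (x y)^5 = 1` has at most sixty elements.
The rewriting rules below were found by a completion procedure. -/

namespace Pool.Agent.H87R3.Tri

structure Rel {G : Type*} [Group G] (x y Y : G) : Prop where
  xx : x * x = 1
  yY : y * Y = 1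
  Yy : Y * y = 1
  yy : y * y = Y
  YY : Y * Y = y
  pow : (x * y) ^ 5 = 1

variable {G : Type*} [Group G] {x y Y : G}

theorem r0 (h : Rel x y Y) (t : G) : x * (x * t) = t := by
  have := h.xx
  rw [← mul_assoc, this, one_mul]

theorem r1 (h : Rel x y Y) (t : G) : y * (Y * t) = t := by
  have := h.yY
  rw [← mul_assoc, this, one_mul]

theorem r2 (h : Rel x y Y) (t : G) : Y * (y * t) = t := by
  have := h.Yy
  rw [← mul_assoc, this, one_mul]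

theorem r3 (h : Rel x y Y) (t : G) : y * (y * t) = Y * t := by
  have := h.yy
  rw [← mul_assoc, this]

theorem r4 (h : Rel x y Y) (t : G) : Y * (Y * t) = y * t := by
  have := h.YY
  rw [← mul_assoc, this]

theorem r5 (h : Rel x y Y) (t : G) : x * (y * (x * (y * (x * (y * (x * (y * (x * (y * t))))))))) = t := by
  have := congrArg (· * t) h.pow
  simpa only [pow_succ, pow_zero, one_mul, mul_assoc] using this

theorem r6 (h : Rel x y Y) (t : G) : y * (x * (y * (x * (y * (x * (y * (x * (y * t)))))))) = x * t := by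
  have e1 := r0 h (y * (x * (y * (x * (y * (x * (y * (x * (y * t)))))))))
  have e2 : x * (x * (y * (x * (y * (x * (y * (x * (y * (x * (y * t)))))))))) = x * t := by rw [r5 h t]
  have key := e1.symm.trans e2
  first | exact key | exact key.symm

theorem r7 (h : Rel x y Y) (t : G) : x * (y * (x * (y * (x * (y * (x * (y * t))))))) = Y * (x * t) := by
  have e1 := r2 h (x * (y * (x * (y * (x * (y * (x * (y * t))))))))
  have e2 : Y * (y * (x * (y * (x * (y * (x * (y * (x * (y * t))))))))) = Y * (x * t) := by rw [r6 h t]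
  have key := e1.symm.trans e2
  first | exact key | exact key.symm

theorem r8 (h : Rel x y Y) (t : G) : y * (x * (y * (x * (y * (x * (y * t)))))) = x * (Y * (x * t)) := by
  have e1 := r0 h (y * (x * (y * (x * (y * (x * (y * t)))))))
  have e2 : x * (x * (y * (x * (y * (x * (y * (x * (y * t)))))))) = x * (Y * (x * t)) := by rw [r7 h t]
  have key := e1.symm.trans e2
  first | exact key | exact key.symm

theorem r9 (h : Rel x y Y) (t : G) : x * (y * (x * (y * (x * (y * t))))) = Y * (x * (Y * (x * t))) := by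
  have e1 := r2 h (x * (y * (x * (y * (x * (y * t))))))
  have e2 : Y * (y * (x * (y * (x * (y * (x * (y * t))))))) = Y * (x * (Y * (x * t))) := by rw [r8 h t]
  have key := e1.symm.trans e2
  first | exact key | exact key.symm

theorem r10 (h : Rel x y Y) (t : G) : y * (x * (y * (x * (y * t)))) = x * (Y * (x * (Y * (x * t)))) := by
  have e1 := r0 h (y * (x * (y * (x * (y * t)))))
  have e2 : x * (x * (y * (x * (y * (x * (y * t)))))) = x * (Y * (x * (Y * (x * t)))) := by rw [r9 h t]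
  have key := e1.symm.trans e2
  first | exact key | exact key.symm

theorem r12 (h : Rel x y Y) (t : G) : y * (x * (Y * (x * (Y * (x * t))))) = Y * (x * (y * (x * (y * t)))) := by
  have e1 := r3 h (x * (y * (x * (y * t))))
  have e2 : y * (y * (x * (y * (x * (y * t))))) = y * (x * (Y * (x * (Y * (x * t))))) := by rw [r10 h t]
  have key := e1.symm.trans e2
  first | exact key | exact key.symm

theorem r13 (h : Rel x y Y) (t : G) : x * (Y * (x * (Y * (x * (Y * t))))) = y * (x * (y * (x * t))) := by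
  have e1 := r10 h (Y * t)
  have e2 : y * (x * (y * (x * (y * (Y * t))))) = y * (x * (y * (x * t))) := by rw [r1 h t]
  have key := e1.symm.trans e2
  first | exact key | exact key.symm

theorem r14 (h : Rel x y Y) (t : G) : x * (Y * (x * (Y * (x * (y * t))))) = y * (x * (y * (x * (Y * t)))) := by
  have e1 := r10 h (y * t)
  have e2 : y * (x * (y * (x * (y * (y * t))))) = y * (x * (y * (x * (Y * t)))) := by rw [r3 h t]
  have key := e1.symm.trans e2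
  first | exact key | exact key.symm

theorem r15 (h : Rel x y Y) (t : G) : Y * (x * (Y * (x * (Y * t)))) = x * (y * (x * (y * (x * t)))) := by
  have e1 := r0 h (Y * (x * (Y * (x * (Y * t)))))
  have e2 : x * (x * (Y * (x * (Y * (x * (Y * t)))))) = x * (y * (x * (y * (x * t)))) := by rw [r13 h t]
  have key := e1.symm.trans e2
  first | exact key | exact key.symm

theorem r16 (h : Rel x y Y) (t : G) : Y * (x * (y * (x * (y * (x * t))))) = y * (x * (Y * (x * (Y * t)))) := by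
  have e1 := r4 h (x * (Y * (x * (Y * t))))
  have e2 : Y * (Y * (x * (Y * (x * (Y * t))))) = Y * (x * (y * (x * (y * (x * t))))) := by rw [r15 h t]
  have key := e1.symm.trans e2
  first | exact key | exact key.symm

theorem r17 (h : Rel x y Y) (t : G) : x * (y * (x * (y * (x * (Y * t))))) = Y * (x * (Y * (x * (y * t)))) := by
  have e1 := r15 h (Y * t)
  have e2 : Y * (x * (Y * (x * (Y * (Y * t))))) = Y * (x * (Y * (x * (y * t)))) := by rw [r4 h t]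
  have key := e1.symm.trans e2
  first | exact key | exact key.symm

theorem r18 (h : Rel x y Y) (t : G) : y * (x * (y * (x * (Y * (x * (y * (x * t))))))) = x * (Y * (x * (y * (x * (Y * (x * (Y * t))))))) := by
  have e1 := r14 h (x * (y * (x * t)))
  have e2 : x * (Y * (x * (Y * (x * (y * (x * (y * (x * t)))))))) = x * (Y * (x * (y * (x * (Y * (x * (Y * t))))))) := by rw [r16 h t]
  have key := e1.symm.trans e2
  first | exact key | exact key.symm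

theorem r20 (h : Rel x y Y) (t : G) : y * (x * (Y * (x * (y * (x * (Y * (x * (Y * t)))))))) = Y * (x * (y * (x * (Y * (x * (y * (x * t))))))) := by
  have e1 := r3 h (x * (y * (x * (Y * (x * (y * (x * t)))))))
  have e2 : y * (y * (x * (y * (x * (Y * (x * (y * (x * t)))))))) = y * (x * (Y * (x * (y * (x * (Y * (x * (Y * t)))))))) := by rw [r18 h t]
  have key := e1.symm.trans e2
  first | exact key | exact key.symm

theorem r21 (h : Rel x y Y) (t : G) : Y * (x * (Y * (x * (y * (x * (Y * (x * t))))))) = x * (y * (x * (Y * (x * (y * (x * (y * t))))))) := by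
  have e1 := r17 h (x * (Y * (x * t)))
  have e2 : x * (y * (x * (y * (x * (Y * (x * (Y * (x * t)))))))) = x * (y * (x * (Y * (x * (y * (x * (y * t))))))) := by rw [r12 h t]
  have key := e1.symm.trans e2
  first | exact key | exact key.symm

theorem r22 (h : Rel x y Y) (t : G) : Y * (x * (y * (x * (Y * (x * (y * (x * (y * t)))))))) = y * (x * (Y * (x * (y * (x * (Y * (x * t))))))) := by
  have e1 := r4 h (x * (Y * (x * (y * (x * (Y * (x * t)))))))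
  have e2 : Y * (Y * (x * (Y * (x * (y * (x * (Y * (x * t)))))))) = Y * (x * (y * (x * (Y * (x * (y * (x * (y * t)))))))) := by rw [r21 h t]
  have key := e1.symm.trans e2
  first | exact key | exact key.symm

theorem r23 (h : Rel x y Y) (t : G) : Y * (x * (y * (x * (Y * (x * (y * (x * (Y * t)))))))) = y * (x * (Y * (x * (y * (x * (Y * (x * (y * t)))))))) := by
  have e1 := r20 h (Y * t)
  have e2 : y * (x * (Y * (x * (y * (x * (Y * (x * (Y * (Y * t))))))))) = y * (x * (Y * (x * (y * (x * (Y * (x * (y * t)))))))) := by rw [r4 h t]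
  have key := e1.symm.trans e2
  first | exact key | exact key.symm

theorem r24 (h : Rel x y Y) (t : G) : y * (x * (Y * (x * (y * (x * (Y * (x * (y * (x * t))))))))) = x * (y * (x * (Y * (x * (y * (x * (Y * (x * (y * t))))))))) := by
  have e1 := r18 h (Y * (x * (Y * t)))
  have e2 : y * (x * (y * (x * (Y * (x * (y * (x * (Y * (x * (Y * t)))))))))) = y * (x * (Y * (x * (y * (x * (Y * (x * (y * (x * t))))))))) := by rw [r20 h t]
  have key := e1.symm.trans e2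
  simp only [r23 h, r4 h] at key
  first | exact key | exact key.symm

/-- letters: `0` is `x`, `1` is `y`, `2` is `Y` -/
def ev (x y Y : G) : List (Fin 3) → G
  | [] => 1
  | 0 :: w => x * ev x y Y w
  | 1 :: w => y * ev x y Y w
  | 2 :: w => Y * ev x y Y w

def nf : List (List (Fin 3)) := [
  [],
  [0],
  [1],
  [2],
  [0, 1],
  [0, 2],
  [1, 0],
  [2, 0],
  [0, 1, 0],
  [0, 2, 0],
  [1, 0, 1],
  [1, 0, 2],
  [2, 0, 1],
  [2, 0, 2],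
  [0, 1, 0, 1],
  [0, 1, 0, 2],
  [0, 2, 0, 1],
  [0, 2, 0, 2],
  [1, 0, 1, 0],
  [1, 0, 2, 0],
  [2, 0, 1, 0],
  [2, 0, 2, 0],
  [0, 1, 0, 1, 0],
  [0, 1, 0, 2, 0],
  [0, 2, 0, 1, 0],
  [0, 2, 0, 2, 0],
  [1, 0, 1, 0, 2],
  [1, 0, 2, 0, 1],
  [1, 0, 2, 0, 2],
  [2, 0, 1, 0, 1],
  [2, 0, 1, 0, 2],
  [2, 0, 2, 0, 1],
  [0, 1, 0, 2, 0, 1],
  [0, 1, 0, 2, 0, 2],
  [0, 2, 0, 1, 0, 1],
  [0, 2, 0, 1, 0, 2],
  [1, 0, 1, 0, 2, 0],
  [1, 0, 2, 0, 1, 0],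
  [2, 0, 1, 0, 2, 0],
  [2, 0, 2, 0, 1, 0],
  [0, 1, 0, 2, 0, 1, 0],
  [0, 2, 0, 1, 0, 2, 0],
  [1, 0, 1, 0, 2, 0, 1],
  [1, 0, 1, 0, 2, 0, 2],
  [1, 0, 2, 0, 1, 0, 1],
  [1, 0, 2, 0, 1, 0, 2],
  [2, 0, 1, 0, 2, 0, 1],
  [2, 0, 1, 0, 2, 0, 2],
  [2, 0, 2, 0, 1, 0, 1],
  [2, 0, 2, 0, 1, 0, 2],
  [0, 1, 0, 2, 0, 1, 0, 1],
  [0, 1, 0, 2, 0, 1, 0, 2],
  [0, 2, 0, 1, 0, 2, 0, 1],
  [0, 2, 0, 1, 0, 2, 0, 2],
  [1, 0, 2, 0, 1, 0, 2, 0],
  [2, 0, 1, 0, 2, 0, 1, 0],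
  [0, 1, 0, 2, 0, 1, 0, 2, 0],
  [0, 2, 0, 1, 0, 2, 0, 1, 0],
  [1, 0, 2, 0, 1, 0, 2, 0, 1],
  [0, 1, 0, 2, 0, 1, 0, 2, 0, 1]]

theorem nf_x (h : Rel x y Y) (w : List (Fin 3)) (hw : w ∈ nf) : ∃ v ∈ nf, x * ev x y Y w = ev x y Y v := by
  simp only [nf, List.mem_cons, List.mem_nil_iff, or_false] at hw
  rcases hw with rfl | rfl | rfl | rfl | rfl | rfl | rfl | rfl | rfl | rfl | rfl | rfl | rfl | rfl | rfl | rfl | rfl | rfl | rfl | rfl | rfl | rfl | rfl | rfl | rfl | rfl | rfl | rfl | rfl | rfl | rfl | rfl | rfl | rfl | rfl | rfl | rfl | rfl | rfl | rfl | rfl | rfl | rfl | rfl | rfl | rfl | rfl | rfl | rfl | rfl | rfl | rfl | rfl | rfl | rfl | rfl | rfl | rfl | rfl | rfl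
  · exact ⟨[0], by decide, by simp only [ev, r0 h, r1 h, r2 h, r3 h, r4 h, r10 h, r12 h, r14 h, r15 h, r16 h, r17 h, r18 h, r20 h, r21 h, r22 h, r23 h, r24 h]⟩
  · exact ⟨[], by decide, by simp only [ev, r0 h, r1 h, r2 h, r3 h, r4 h, r10 h, r12 h, r14 h, r15 h, r16 h, r17 h, r18 h, r20 h, r21 h, r22 h, r23 h, r24 h]⟩
  · exact ⟨[0, 1], by decide, by simp only [ev, r0 h, r1 h, r2 h, r3 h, r4 h, r10 h, r12 h, r14 h, r15 h, r16 h, r17 h, r18 h, r20 h, r21 h, r22 h, r23 h, r24 h]⟩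
  · exact ⟨[0, 2], by decide, by simp only [ev, r0 h, r1 h, r2 h, r3 h, r4 h, r10 h, r12 h, r14 h, r15 h, r16 h, r17 h, r18 h, r20 h, r21 h, r22 h, r23 h, r24 h]⟩
  · exact ⟨[1], by decide, by simp only [ev, r0 h, r1 h, r2 h, r3 h, r4 h, r10 h, r12 h, r14 h, r15 h, r16 h, r17 h, r18 h, r20 h, r21 h, r22 h, r23 h, r24 h]⟩
  · exact ⟨[2], by decide, by simp only [ev, r0 h, r1 h, r2 h, r3 h, r4 h, r10 h, r12 h, r14 h, r15 h, r16 h, r17 h, r18 h, r20 h, r21 h, r22 h, r23 h, r24 h]⟩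
  · exact ⟨[0, 1, 0], by decide, by simp only [ev, r0 h, r1 h, r2 h, r3 h, r4 h, r10 h, r12 h, r14 h, r15 h, r16 h, r17 h, r18 h, r20 h, r21 h, r22 h, r23 h, r24 h]⟩
  · exact ⟨[0, 2, 0], by decide, by simp only [ev, r0 h, r1 h, r2 h, r3 h, r4 h, r10 h, r12 h, r14 h, r15 h, r16 h, r17 h, r18 h, r20 h, r21 h, r22 h, r23 h, r24 h]⟩
  · exact ⟨[1, 0], by decide, by simp only [ev, r0 h, r1 h, r2 h, r3 h, r4 h, r10 h, r12 h, r14 h, r15 h, r16 h, r17 h, r18 h, r20 h, r21 h, r22 h, r23 h, r24 h]⟩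
  · exact ⟨[2, 0], by decide, by simp only [ev, r0 h, r1 h, r2 h, r3 h, r4 h, r10 h, r12 h, r14 h, r15 h, r16 h, r17 h, r18 h, r20 h, r21 h, r22 h, r23 h, r24 h]⟩
  · exact ⟨[0, 1, 0, 1], by decide, by simp only [ev, r0 h, r1 h, r2 h, r3 h, r4 h, r10 h, r12 h, r14 h, r15 h, r16 h, r17 h, r18 h, r20 h, r21 h, r22 h, r23 h, r24 h]⟩
  · exact ⟨[0, 1, 0, 2], by decide, by simp only [ev, r0 h, r1 h, r2 h, r3 h, r4 h, r10 h, r12 h, r14 h, r15 h, r16 h, r17 h, r18 h, r20 h, r21 h, r22 h, r23 h, r24 h]⟩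
  · exact ⟨[0, 2, 0, 1], by decide, by simp only [ev, r0 h, r1 h, r2 h, r3 h, r4 h, r10 h, r12 h, r14 h, r15 h, r16 h, r17 h, r18 h, r20 h, r21 h, r22 h, r23 h, r24 h]⟩
  · exact ⟨[0, 2, 0, 2], by decide, by simp only [ev, r0 h, r1 h, r2 h, r3 h, r4 h, r10 h, r12 h, r14 h, r15 h, r16 h, r17 h, r18 h, r20 h, r21 h, r22 h, r23 h, r24 h]⟩
  · exact ⟨[1, 0, 1], by decide, by simp only [ev, r0 h, r1 h, r2 h, r3 h, r4 h, r10 h, r12 h, r14 h, r15 h, r16 h, r17 h, r18 h, r20 h, r21 h, r22 h, r23 h, r24 h]⟩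
  · exact ⟨[1, 0, 2], by decide, by simp only [ev, r0 h, r1 h, r2 h, r3 h, r4 h, r10 h, r12 h, r14 h, r15 h, r16 h, r17 h, r18 h, r20 h, r21 h, r22 h, r23 h, r24 h]⟩
  · exact ⟨[2, 0, 1], by decide, by simp only [ev, r0 h, r1 h, r2 h, r3 h, r4 h, r10 h, r12 h, r14 h, r15 h, r16 h, r17 h, r18 h, r20 h, r21 h, r22 h, r23 h, r24 h]⟩
  · exact ⟨[2, 0, 2], by decide, by simp only [ev, r0 h, r1 h, r2 h, r3 h, r4 h, r10 h, r12 h, r14 h, r15 h, r16 h, r17 h, r18 h, r20 h, r21 h, r22 h, r23 h, r24 h]⟩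
  · exact ⟨[0, 1, 0, 1, 0], by decide, by simp only [ev, r0 h, r1 h, r2 h, r3 h, r4 h, r10 h, r12 h, r14 h, r15 h, r16 h, r17 h, r18 h, r20 h, r21 h, r22 h, r23 h, r24 h]⟩
  · exact ⟨[0, 1, 0, 2, 0], by decide, by simp only [ev, r0 h, r1 h, r2 h, r3 h, r4 h, r10 h, r12 h, r14 h, r15 h, r16 h, r17 h, r18 h, r20 h, r21 h, r22 h, r23 h, r24 h]⟩
  · exact ⟨[0, 2, 0, 1, 0], by decide, by simp only [ev, r0 h, r1 h, r2 h, r3 h, r4 h, r10 h, r12 h, r14 h, r15 h, r16 h, r17 h, r18 h, r20 h, r21 h, r22 h, r23 h, r24 h]⟩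
  · exact ⟨[0, 2, 0, 2, 0], by decide, by simp only [ev, r0 h, r1 h, r2 h, r3 h, r4 h, r10 h, r12 h, r14 h, r15 h, r16 h, r17 h, r18 h, r20 h, r21 h, r22 h, r23 h, r24 h]⟩
  · exact ⟨[1, 0, 1, 0], by decide, by simp only [ev, r0 h, r1 h, r2 h, r3 h, r4 h, r10 h, r12 h, r14 h, r15 h, r16 h, r17 h, r18 h, r20 h, r21 h, r22 h, r23 h, r24 h]⟩
  · exact ⟨[1, 0, 2, 0], by decide, by simp only [ev, r0 h, r1 h, r2 h, r3 h, r4 h, r10 h, r12 h, r14 h, r15 h, r16 h, r17 h, r18 h, r20 h, r21 h, r22 h, r23 h, r24 h]⟩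
  · exact ⟨[2, 0, 1, 0], by decide, by simp only [ev, r0 h, r1 h, r2 h, r3 h, r4 h, r10 h, r12 h, r14 h, r15 h, r16 h, r17 h, r18 h, r20 h, r21 h, r22 h, r23 h, r24 h]⟩
  · exact ⟨[2, 0, 2, 0], by decide, by simp only [ev, r0 h, r1 h, r2 h, r3 h, r4 h, r10 h, r12 h, r14 h, r15 h, r16 h, r17 h, r18 h, r20 h, r21 h, r22 h, r23 h, r24 h]⟩
  · exact ⟨[2, 0, 2, 0, 1], by decide, by simp only [ev, r0 h, r1 h, r2 h, r3 h, r4 h, r10 h, r12 h, r14 h, r15 h, r16 h, r17 h, r18 h, r20 h, r21 h, r22 h, r23 h, r24 h]⟩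
  · exact ⟨[0, 1, 0, 2, 0, 1], by decide, by simp only [ev, r0 h, r1 h, r2 h, r3 h, r4 h, r10 h, r12 h, r14 h, r15 h, r16 h, r17 h, r18 h, r20 h, r21 h, r22 h, r23 h, r24 h]⟩
  · exact ⟨[0, 1, 0, 2, 0, 2], by decide, by simp only [ev, r0 h, r1 h, r2 h, r3 h, r4 h, r10 h, r12 h, r14 h, r15 h, r16 h, r17 h, r18 h, r20 h, r21 h, r22 h, r23 h, r24 h]⟩
  · exact ⟨[0, 2, 0, 1, 0, 1], by decide, by simp only [ev, r0 h, r1 h, r2 h, r3 h, r4 h, r10 h, r12 h, r14 h, r15 h, r16 h, r17 h, r18 h, r20 h, r21 h, r22 h, r23 h, r24 h]⟩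
  · exact ⟨[0, 2, 0, 1, 0, 2], by decide, by simp only [ev, r0 h, r1 h, r2 h, r3 h, r4 h, r10 h, r12 h, r14 h, r15 h, r16 h, r17 h, r18 h, r20 h, r21 h, r22 h, r23 h, r24 h]⟩
  · exact ⟨[1, 0, 1, 0, 2], by decide, by simp only [ev, r0 h, r1 h, r2 h, r3 h, r4 h, r10 h, r12 h, r14 h, r15 h, r16 h, r17 h, r18 h, r20 h, r21 h, r22 h, r23 h, r24 h]⟩
  · exact ⟨[1, 0, 2, 0, 1], by decide, by simp only [ev, r0 h, r1 h, r2 h, r3 h, r4 h, r10 h, r12 h, r14 h, r15 h, r16 h, r17 h, r18 h, r20 h, r21 h, r22 h, r23 h, r24 h]⟩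
  · exact ⟨[1, 0, 2, 0, 2], by decide, by simp only [ev, r0 h, r1 h, r2 h, r3 h, r4 h, r10 h, r12 h, r14 h, r15 h, r16 h, r17 h, r18 h, r20 h, r21 h, r22 h, r23 h, r24 h]⟩
  · exact ⟨[2, 0, 1, 0, 1], by decide, by simp only [ev, r0 h, r1 h, r2 h, r3 h, r4 h, r10 h, r12 h, r14 h, r15 h, r16 h, r17 h, r18 h, r20 h, r21 h, r22 h, r23 h, r24 h]⟩
  · exact ⟨[2, 0, 1, 0, 2], by decide, by simp only [ev, r0 h, r1 h, r2 h, r3 h, r4 h, r10 h, r12 h, r14 h, r15 h, r16 h, r17 h, r18 h, r20 h, r21 h, r22 h, r23 h, r24 h]⟩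
  · exact ⟨[2, 0, 2, 0, 1, 0], by decide, by simp only [ev, r0 h, r1 h, r2 h, r3 h, r4 h, r10 h, r12 h, r14 h, r15 h, r16 h, r17 h, r18 h, r20 h, r21 h, r22 h, r23 h, r24 h]⟩
  · exact ⟨[0, 1, 0, 2, 0, 1, 0], by decide, by simp only [ev, r0 h, r1 h, r2 h, r3 h, r4 h, r10 h, r12 h, r14 h, r15 h, r16 h, r17 h, r18 h, r20 h, r21 h, r22 h, r23 h, r24 h]⟩
  · exact ⟨[0, 2, 0, 1, 0, 2, 0], by decide, by simp only [ev, r0 h, r1 h, r2 h, r3 h, r4 h, r10 h, r12 h, r14 h, r15 h, r16 h, r17 h, r18 h, r20 h, r21 h, r22 h, r23 h, r24 h]⟩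
  · exact ⟨[1, 0, 1, 0, 2, 0], by decide, by simp only [ev, r0 h, r1 h, r2 h, r3 h, r4 h, r10 h, r12 h, r14 h, r15 h, r16 h, r17 h, r18 h, r20 h, r21 h, r22 h, r23 h, r24 h]⟩
  · exact ⟨[1, 0, 2, 0, 1, 0], by decide, by simp only [ev, r0 h, r1 h, r2 h, r3 h, r4 h, r10 h, r12 h, r14 h, r15 h, r16 h, r17 h, r18 h, r20 h, r21 h, r22 h, r23 h, r24 h]⟩
  · exact ⟨[2, 0, 1, 0, 2, 0], by decide, by simp only [ev, r0 h, r1 h, r2 h, r3 h, r4 h, r10 h, r12 h, r14 h, r15 h, r16 h, r17 h, r18 h, r20 h, r21 h, r22 h, r23 h, r24 h]⟩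
  · exact ⟨[2, 0, 2, 0, 1, 0, 1], by decide, by simp only [ev, r0 h, r1 h, r2 h, r3 h, r4 h, r10 h, r12 h, r14 h, r15 h, r16 h, r17 h, r18 h, r20 h, r21 h, r22 h, r23 h, r24 h]⟩
  · exact ⟨[2, 0, 2, 0, 1, 0, 2], by decide, by simp only [ev, r0 h, r1 h, r2 h, r3 h, r4 h, r10 h, r12 h, r14 h, r15 h, r16 h, r17 h, r18 h, r20 h, r21 h, r22 h, r23 h, r24 h]⟩
  · exact ⟨[0, 1, 0, 2, 0, 1, 0, 1], by decide, by simp only [ev, r0 h, r1 h, r2 h, r3 h, r4 h, r10 h, r12 h, r14 h, r15 h, r16 h, r17 h, r18 h, r20 h, r21 h, r22 h, r23 h, r24 h]⟩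
  · exact ⟨[0, 1, 0, 2, 0, 1, 0, 2], by decide, by simp only [ev, r0 h, r1 h, r2 h, r3 h, r4 h, r10 h, r12 h, r14 h, r15 h, r16 h, r17 h, r18 h, r20 h, r21 h, r22 h, r23 h, r24 h]⟩
  · exact ⟨[0, 2, 0, 1, 0, 2, 0, 1], by decide, by simp only [ev, r0 h, r1 h, r2 h, r3 h, r4 h, r10 h, r12 h, r14 h, r15 h, r16 h, r17 h, r18 h, r20 h, r21 h, r22 h, r23 h, r24 h]⟩
  · exact ⟨[0, 2, 0, 1, 0, 2, 0, 2], by decide, by simp only [ev, r0 h, r1 h, r2 h, r3 h, r4 h, r10 h, r12 h, r14 h, r15 h, r16 h, r17 h, r18 h, r20 h, r21 h, r22 h, r23 h, r24 h]⟩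
  · exact ⟨[1, 0, 1, 0, 2, 0, 1], by decide, by simp only [ev, r0 h, r1 h, r2 h, r3 h, r4 h, r10 h, r12 h, r14 h, r15 h, r16 h, r17 h, r18 h, r20 h, r21 h, r22 h, r23 h, r24 h]⟩
  · exact ⟨[1, 0, 1, 0, 2, 0, 2], by decide, by simp only [ev, r0 h, r1 h, r2 h, r3 h, r4 h, r10 h, r12 h, r14 h, r15 h, r16 h, r17 h, r18 h, r20 h, r21 h, r22 h, r23 h, r24 h]⟩
  · exact ⟨[1, 0, 2, 0, 1, 0, 1], by decide, by simp only [ev, r0 h, r1 h, r2 h, r3 h, r4 h, r10 h, r12 h, r14 h, r15 h, r16 h, r17 h, r18 h, r20 h, r21 h, r22 h, r23 h, r24 h]⟩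
  · exact ⟨[1, 0, 2, 0, 1, 0, 2], by decide, by simp only [ev, r0 h, r1 h, r2 h, r3 h, r4 h, r10 h, r12 h, r14 h, r15 h, r16 h, r17 h, r18 h, r20 h, r21 h, r22 h, r23 h, r24 h]⟩
  · exact ⟨[2, 0, 1, 0, 2, 0, 1], by decide, by simp only [ev, r0 h, r1 h, r2 h, r3 h, r4 h, r10 h, r12 h, r14 h, r15 h, r16 h, r17 h, r18 h, r20 h, r21 h, r22 h, r23 h, r24 h]⟩
  · exact ⟨[2, 0, 1, 0, 2, 0, 2], by decide, by simp only [ev, r0 h, r1 h, r2 h, r3 h, r4 h, r10 h, r12 h, r14 h, r15 h, r16 h, r17 h, r18 h, r20 h, r21 h, r22 h, r23 h, r24 h]⟩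
  · exact ⟨[0, 1, 0, 2, 0, 1, 0, 2, 0], by decide, by simp only [ev, r0 h, r1 h, r2 h, r3 h, r4 h, r10 h, r12 h, r14 h, r15 h, r16 h, r17 h, r18 h, r20 h, r21 h, r22 h, r23 h, r24 h]⟩
  · exact ⟨[0, 2, 0, 1, 0, 2, 0, 1, 0], by decide, by simp only [ev, r0 h, r1 h, r2 h, r3 h, r4 h, r10 h, r12 h, r14 h, r15 h, r16 h, r17 h, r18 h, r20 h, r21 h, r22 h, r23 h, r24 h]⟩
  · exact ⟨[1, 0, 2, 0, 1, 0, 2, 0], by decide, by simp only [ev, r0 h, r1 h, r2 h, r3 h, r4 h, r10 h, r12 h, r14 h, r15 h, r16 h, r17 h, r18 h, r20 h, r21 h, r22 h, r23 h, r24 h]⟩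
  · exact ⟨[2, 0, 1, 0, 2, 0, 1, 0], by decide, by simp only [ev, r0 h, r1 h, r2 h, r3 h, r4 h, r10 h, r12 h, r14 h, r15 h, r16 h, r17 h, r18 h, r20 h, r21 h, r22 h, r23 h, r24 h]⟩
  · exact ⟨[0, 1, 0, 2, 0, 1, 0, 2, 0, 1], by decide, by simp only [ev, r0 h, r1 h, r2 h, r3 h, r4 h, r10 h, r12 h, r14 h, r15 h, r16 h, r17 h, r18 h, r20 h, r21 h, r22 h, r23 h, r24 h]⟩
  · exact ⟨[1, 0, 2, 0, 1, 0, 2, 0, 1], by decide, by simp only [ev, r0 h, r1 h, r2 h, r3 h, r4 h, r10 h, r12 h, r14 h, r15 h, r16 h, r17 h, r18 h, r20 h, r21 h, r22 h, r23 h, r24 h]⟩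

theorem nf_y (h : Rel x y Y) (w : List (Fin 3)) (hw : w ∈ nf) : ∃ v ∈ nf, y * ev x y Y w = ev x y Y v := by
  simp only [nf, List.mem_cons, List.mem_nil_iff, or_false] at hw
  rcases hw with rfl | rfl | rfl | rfl | rfl | rfl | rfl | rfl | rfl | rfl | rfl | rfl | rfl | rfl | rfl | rfl | rfl | rfl | rfl | rfl | rfl | rfl | rfl | rfl | rfl | rfl | rfl | rfl | rfl | rfl | rfl | rfl | rfl | rfl | rfl | rfl | rfl | rfl | rfl | rfl | rfl | rfl | rfl | rfl | rfl | rfl | rfl | rfl | rfl | rfl | rfl | rfl | rfl | rfl | rfl | rfl | rfl | rfl | rfl | rfl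
  · exact ⟨[1], by decide, by simp only [ev, r0 h, r1 h, r2 h, r3 h, r4 h, r10 h, r12 h, r14 h, r15 h, r16 h, r17 h, r18 h, r20 h, r21 h, r22 h, r23 h, r24 h]⟩
  · exact ⟨[1, 0], by decide, by simp only [ev, r0 h, r1 h, r2 h, r3 h, r4 h, r10 h, r12 h, r14 h, r15 h, r16 h, r17 h, r18 h, r20 h, r21 h, r22 h, r23 h, r24 h]⟩
  · exact ⟨[2], by decide, by simp only [ev, r0 h, r1 h, r2 h, r3 h, r4 h, r10 h, r12 h, r14 h, r15 h, r16 h, r17 h, r18 h, r20 h, r21 h, r22 h, r23 h, r24 h]⟩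
  · exact ⟨[], by decide, by simp only [ev, r0 h, r1 h, r2 h, r3 h, r4 h, r10 h, r12 h, r14 h, r15 h, r16 h, r17 h, r18 h, r20 h, r21 h, r22 h, r23 h, r24 h]⟩
  · exact ⟨[1, 0, 1], by decide, by simp only [ev, r0 h, r1 h, r2 h, r3 h, r4 h, r10 h, r12 h, r14 h, r15 h, r16 h, r17 h, r18 h, r20 h, r21 h, r22 h, r23 h, r24 h]⟩
  · exact ⟨[1, 0, 2], by decide, by simp only [ev, r0 h, r1 h, r2 h, r3 h, r4 h, r10 h, r12 h, r14 h, r15 h, r16 h, r17 h, r18 h, r20 h, r21 h, r22 h, r23 h, r24 h]⟩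
  · exact ⟨[2, 0], by decide, by simp only [ev, r0 h, r1 h, r2 h, r3 h, r4 h, r10 h, r12 h, r14 h, r15 h, r16 h, r17 h, r18 h, r20 h, r21 h, r22 h, r23 h, r24 h]⟩
  · exact ⟨[0], by decide, by simp only [ev, r0 h, r1 h, r2 h, r3 h, r4 h, r10 h, r12 h, r14 h, r15 h, r16 h, r17 h, r18 h, r20 h, r21 h, r22 h, r23 h, r24 h]⟩
  · exact ⟨[1, 0, 1, 0], by decide, by simp only [ev, r0 h, r1 h, r2 h, r3 h, r4 h, r10 h, r12 h, r14 h, r15 h, r16 h, r17 h, r18 h, r20 h, r21 h, r22 h, r23 h, r24 h]⟩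
  · exact ⟨[1, 0, 2, 0], by decide, by simp only [ev, r0 h, r1 h, r2 h, r3 h, r4 h, r10 h, r12 h, r14 h, r15 h, r16 h, r17 h, r18 h, r20 h, r21 h, r22 h, r23 h, r24 h]⟩
  · exact ⟨[2, 0, 1], by decide, by simp only [ev, r0 h, r1 h, r2 h, r3 h, r4 h, r10 h, r12 h, r14 h, r15 h, r16 h, r17 h, r18 h, r20 h, r21 h, r22 h, r23 h, r24 h]⟩
  · exact ⟨[2, 0, 2], by decide, by simp only [ev, r0 h, r1 h, r2 h, r3 h, r4 h, r10 h, r12 h, r14 h, r15 h, r16 h, r17 h, r18 h, r20 h, r21 h, r22 h, r23 h, r24 h]⟩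
  · exact ⟨[0, 1], by decide, by simp only [ev, r0 h, r1 h, r2 h, r3 h, r4 h, r10 h, r12 h, r14 h, r15 h, r16 h, r17 h, r18 h, r20 h, r21 h, r22 h, r23 h, r24 h]⟩
  · exact ⟨[0, 2], by decide, by simp only [ev, r0 h, r1 h, r2 h, r3 h, r4 h, r10 h, r12 h, r14 h, r15 h, r16 h, r17 h, r18 h, r20 h, r21 h, r22 h, r23 h, r24 h]⟩
  · exact ⟨[0, 2, 0, 2, 0], by decide, by simp only [ev, r0 h, r1 h, r2 h, r3 h, r4 h, r10 h, r12 h, r14 h, r15 h, r16 h, r17 h, r18 h, r20 h, r21 h, r22 h, r23 h, r24 h]⟩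
  · exact ⟨[1, 0, 1, 0, 2], by decide, by simp only [ev, r0 h, r1 h, r2 h, r3 h, r4 h, r10 h, r12 h, r14 h, r15 h, r16 h, r17 h, r18 h, r20 h, r21 h, r22 h, r23 h, r24 h]⟩
  · exact ⟨[1, 0, 2, 0, 1], by decide, by simp only [ev, r0 h, r1 h, r2 h, r3 h, r4 h, r10 h, r12 h, r14 h, r15 h, r16 h, r17 h, r18 h, r20 h, r21 h, r22 h, r23 h, r24 h]⟩
  · exact ⟨[1, 0, 2, 0, 2], by decide, by simp only [ev, r0 h, r1 h, r2 h, r3 h, r4 h, r10 h, r12 h, r14 h, r15 h, r16 h, r17 h, r18 h, r20 h, r21 h, r22 h, r23 h, r24 h]⟩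
  · exact ⟨[2, 0, 1, 0], by decide, by simp only [ev, r0 h, r1 h, r2 h, r3 h, r4 h, r10 h, r12 h, r14 h, r15 h, r16 h, r17 h, r18 h, r20 h, r21 h, r22 h, r23 h, r24 h]⟩
  · exact ⟨[2, 0, 2, 0], by decide, by simp only [ev, r0 h, r1 h, r2 h, r3 h, r4 h, r10 h, r12 h, r14 h, r15 h, r16 h, r17 h, r18 h, r20 h, r21 h, r22 h, r23 h, r24 h]⟩
  · exact ⟨[0, 1, 0], by decide, by simp only [ev, r0 h, r1 h, r2 h, r3 h, r4 h, r10 h, r12 h, r14 h, r15 h, r16 h, r17 h, r18 h, r20 h, r21 h, r22 h, r23 h, r24 h]⟩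
  · exact ⟨[0, 2, 0], by decide, by simp only [ev, r0 h, r1 h, r2 h, r3 h, r4 h, r10 h, r12 h, r14 h, r15 h, r16 h, r17 h, r18 h, r20 h, r21 h, r22 h, r23 h, r24 h]⟩
  · exact ⟨[0, 2, 0, 2], by decide, by simp only [ev, r0 h, r1 h, r2 h, r3 h, r4 h, r10 h, r12 h, r14 h, r15 h, r16 h, r17 h, r18 h, r20 h, r21 h, r22 h, r23 h, r24 h]⟩
  · exact ⟨[1, 0, 1, 0, 2, 0], by decide, by simp only [ev, r0 h, r1 h, r2 h, r3 h, r4 h, r10 h, r12 h, r14 h, r15 h, r16 h, r17 h, r18 h, r20 h, r21 h, r22 h, r23 h, r24 h]⟩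
  · exact ⟨[1, 0, 2, 0, 1, 0], by decide, by simp only [ev, r0 h, r1 h, r2 h, r3 h, r4 h, r10 h, r12 h, r14 h, r15 h, r16 h, r17 h, r18 h, r20 h, r21 h, r22 h, r23 h, r24 h]⟩
  · exact ⟨[2, 0, 1, 0, 1], by decide, by simp only [ev, r0 h, r1 h, r2 h, r3 h, r4 h, r10 h, r12 h, r14 h, r15 h, r16 h, r17 h, r18 h, r20 h, r21 h, r22 h, r23 h, r24 h]⟩
  · exact ⟨[2, 0, 1, 0, 2], by decide, by simp only [ev, r0 h, r1 h, r2 h, r3 h, r4 h, r10 h, r12 h, r14 h, r15 h, r16 h, r17 h, r18 h, r20 h, r21 h, r22 h, r23 h, r24 h]⟩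
  · exact ⟨[2, 0, 2, 0, 1], by decide, by simp only [ev, r0 h, r1 h, r2 h, r3 h, r4 h, r10 h, r12 h, r14 h, r15 h, r16 h, r17 h, r18 h, r20 h, r21 h, r22 h, r23 h, r24 h]⟩
  · exact ⟨[0, 1, 0, 1, 0], by decide, by simp only [ev, r0 h, r1 h, r2 h, r3 h, r4 h, r10 h, r12 h, r14 h, r15 h, r16 h, r17 h, r18 h, r20 h, r21 h, r22 h, r23 h, r24 h]⟩
  · exact ⟨[0, 1, 0, 1], by decide, by simp only [ev, r0 h, r1 h, r2 h, r3 h, r4 h, r10 h, r12 h, r14 h, r15 h, r16 h, r17 h, r18 h, r20 h, r21 h, r22 h, r23 h, r24 h]⟩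
  · exact ⟨[0, 1, 0, 2], by decide, by simp only [ev, r0 h, r1 h, r2 h, r3 h, r4 h, r10 h, r12 h, r14 h, r15 h, r16 h, r17 h, r18 h, r20 h, r21 h, r22 h, r23 h, r24 h]⟩
  · exact ⟨[0, 2, 0, 1], by decide, by simp only [ev, r0 h, r1 h, r2 h, r3 h, r4 h, r10 h, r12 h, r14 h, r15 h, r16 h, r17 h, r18 h, r20 h, r21 h, r22 h, r23 h, r24 h]⟩
  · exact ⟨[1, 0, 1, 0, 2, 0, 1], by decide, by simp only [ev, r0 h, r1 h, r2 h, r3 h, r4 h, r10 h, r12 h, r14 h, r15 h, r16 h, r17 h, r18 h, r20 h, r21 h, r22 h, r23 h, r24 h]⟩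
  · exact ⟨[1, 0, 1, 0, 2, 0, 2], by decide, by simp only [ev, r0 h, r1 h, r2 h, r3 h, r4 h, r10 h, r12 h, r14 h, r15 h, r16 h, r17 h, r18 h, r20 h, r21 h, r22 h, r23 h, r24 h]⟩
  · exact ⟨[1, 0, 2, 0, 1, 0, 1], by decide, by simp only [ev, r0 h, r1 h, r2 h, r3 h, r4 h, r10 h, r12 h, r14 h, r15 h, r16 h, r17 h, r18 h, r20 h, r21 h, r22 h, r23 h, r24 h]⟩
  · exact ⟨[1, 0, 2, 0, 1, 0, 2], by decide, by simp only [ev, r0 h, r1 h, r2 h, r3 h, r4 h, r10 h, r12 h, r14 h, r15 h, r16 h, r17 h, r18 h, r20 h, r21 h, r22 h, r23 h, r24 h]⟩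
  · exact ⟨[2, 0, 1, 0, 2, 0], by decide, by simp only [ev, r0 h, r1 h, r2 h, r3 h, r4 h, r10 h, r12 h, r14 h, r15 h, r16 h, r17 h, r18 h, r20 h, r21 h, r22 h, r23 h, r24 h]⟩
  · exact ⟨[2, 0, 2, 0, 1, 0], by decide, by simp only [ev, r0 h, r1 h, r2 h, r3 h, r4 h, r10 h, r12 h, r14 h, r15 h, r16 h, r17 h, r18 h, r20 h, r21 h, r22 h, r23 h, r24 h]⟩
  · exact ⟨[0, 1, 0, 2, 0], by decide, by simp only [ev, r0 h, r1 h, r2 h, r3 h, r4 h, r10 h, r12 h, r14 h, r15 h, r16 h, r17 h, r18 h, r20 h, r21 h, r22 h, r23 h, r24 h]⟩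
  · exact ⟨[0, 2, 0, 1, 0], by decide, by simp only [ev, r0 h, r1 h, r2 h, r3 h, r4 h, r10 h, r12 h, r14 h, r15 h, r16 h, r17 h, r18 h, r20 h, r21 h, r22 h, r23 h, r24 h]⟩
  · exact ⟨[0, 2, 0, 1, 0, 2, 0, 2], by decide, by simp only [ev, r0 h, r1 h, r2 h, r3 h, r4 h, r10 h, r12 h, r14 h, r15 h, r16 h, r17 h, r18 h, r20 h, r21 h, r22 h, r23 h, r24 h]⟩
  · exact ⟨[1, 0, 2, 0, 1, 0, 2, 0], by decide, by simp only [ev, r0 h, r1 h, r2 h, r3 h, r4 h, r10 h, r12 h, r14 h, r15 h, r16 h, r17 h, r18 h, r20 h, r21 h, r22 h, r23 h, r24 h]⟩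
  · exact ⟨[2, 0, 1, 0, 2, 0, 1], by decide, by simp only [ev, r0 h, r1 h, r2 h, r3 h, r4 h, r10 h, r12 h, r14 h, r15 h, r16 h, r17 h, r18 h, r20 h, r21 h, r22 h, r23 h, r24 h]⟩
  · exact ⟨[2, 0, 1, 0, 2, 0, 2], by decide, by simp only [ev, r0 h, r1 h, r2 h, r3 h, r4 h, r10 h, r12 h, r14 h, r15 h, r16 h, r17 h, r18 h, r20 h, r21 h, r22 h, r23 h, r24 h]⟩
  · exact ⟨[2, 0, 2, 0, 1, 0, 1], by decide, by simp only [ev, r0 h, r1 h, r2 h, r3 h, r4 h, r10 h, r12 h, r14 h, r15 h, r16 h, r17 h, r18 h, r20 h, r21 h, r22 h, r23 h, r24 h]⟩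
  · exact ⟨[2, 0, 2, 0, 1, 0, 2], by decide, by simp only [ev, r0 h, r1 h, r2 h, r3 h, r4 h, r10 h, r12 h, r14 h, r15 h, r16 h, r17 h, r18 h, r20 h, r21 h, r22 h, r23 h, r24 h]⟩
  · exact ⟨[0, 1, 0, 2, 0, 1], by decide, by simp only [ev, r0 h, r1 h, r2 h, r3 h, r4 h, r10 h, r12 h, r14 h, r15 h, r16 h, r17 h, r18 h, r20 h, r21 h, r22 h, r23 h, r24 h]⟩
  · exact ⟨[0, 1, 0, 2, 0, 2], by decide, by simp only [ev, r0 h, r1 h, r2 h, r3 h, r4 h, r10 h, r12 h, r14 h, r15 h, r16 h, r17 h, r18 h, r20 h, r21 h, r22 h, r23 h, r24 h]⟩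
  · exact ⟨[0, 2, 0, 1, 0, 1], by decide, by simp only [ev, r0 h, r1 h, r2 h, r3 h, r4 h, r10 h, r12 h, r14 h, r15 h, r16 h, r17 h, r18 h, r20 h, r21 h, r22 h, r23 h, r24 h]⟩
  · exact ⟨[0, 2, 0, 1, 0, 2], by decide, by simp only [ev, r0 h, r1 h, r2 h, r3 h, r4 h, r10 h, r12 h, r14 h, r15 h, r16 h, r17 h, r18 h, r20 h, r21 h, r22 h, r23 h, r24 h]⟩
  · exact ⟨[0, 2, 0, 1, 0, 2, 0], by decide, by simp only [ev, r0 h, r1 h, r2 h, r3 h, r4 h, r10 h, r12 h, r14 h, r15 h, r16 h, r17 h, r18 h, r20 h, r21 h, r22 h, r23 h, r24 h]⟩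
  · exact ⟨[0, 2, 0, 1, 0, 2, 0, 1], by decide, by simp only [ev, r0 h, r1 h, r2 h, r3 h, r4 h, r10 h, r12 h, r14 h, r15 h, r16 h, r17 h, r18 h, r20 h, r21 h, r22 h, r23 h, r24 h]⟩
  · exact ⟨[1, 0, 2, 0, 1, 0, 2, 0, 1], by decide, by simp only [ev, r0 h, r1 h, r2 h, r3 h, r4 h, r10 h, r12 h, r14 h, r15 h, r16 h, r17 h, r18 h, r20 h, r21 h, r22 h, r23 h, r24 h]⟩
  · exact ⟨[2, 0, 1, 0, 2, 0, 1, 0], by decide, by simp only [ev, r0 h, r1 h, r2 h, r3 h, r4 h, r10 h, r12 h, r14 h, r15 h, r16 h, r17 h, r18 h, r20 h, r21 h, r22 h, r23 h, r24 h]⟩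
  · exact ⟨[0, 1, 0, 2, 0, 1, 0, 1], by decide, by simp only [ev, r0 h, r1 h, r2 h, r3 h, r4 h, r10 h, r12 h, r14 h, r15 h, r16 h, r17 h, r18 h, r20 h, r21 h, r22 h, r23 h, r24 h]⟩
  · exact ⟨[0, 1, 0, 2, 0, 1, 0], by decide, by simp only [ev, r0 h, r1 h, r2 h, r3 h, r4 h, r10 h, r12 h, r14 h, r15 h, r16 h, r17 h, r18 h, r20 h, r21 h, r22 h, r23 h, r24 h]⟩
  · exact ⟨[0, 2, 0, 1, 0, 2, 0, 1, 0], by decide, by simp only [ev, r0 h, r1 h, r2 h, r3 h, r4 h, r10 h, r12 h, r14 h, r15 h, r16 h, r17 h, r18 h, r20 h, r21 h, r22 h, r23 h, r24 h]⟩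
  · exact ⟨[0, 1, 0, 2, 0, 1, 0, 2, 0, 1], by decide, by simp only [ev, r0 h, r1 h, r2 h, r3 h, r4 h, r10 h, r12 h, r14 h, r15 h, r16 h, r17 h, r18 h, r20 h, r21 h, r22 h, r23 h, r24 h]⟩
  · exact ⟨[0, 1, 0, 2, 0, 1, 0, 2], by decide, by simp only [ev, r0 h, r1 h, r2 h, r3 h, r4 h, r10 h, r12 h, r14 h, r15 h, r16 h, r17 h, r18 h, r20 h, r21 h, r22 h, r23 h, r24 h]⟩
  · exact ⟨[0, 1, 0, 2, 0, 1, 0, 2, 0], by decide, by simp only [ev, r0 h, r1 h, r2 h, r3 h, r4 h, r10 h, r12 h, r14 h, r15 h, r16 h, r17 h, r18 h, r20 h, r21 h, r22 h, r23 h, r24 h]⟩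

end Pool.Agent.H87R3.Tri
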