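import Pool.Agent.H87R3.Tri

set_option autoImplicit false

/-! Alternating quotients of the `(2,3,5)` triangle group. -/

namespace Pool.Agent.H87R3.Tri

variable {G : Type*} [Group G] {x y Y : G}

/-- the set of values of the sixty words -/
def S (x y Y : G) : Set G := {g | ∃ w ∈ nf, g = ev x y Y w}

theorem closure_sub (h : Rel x y Y) : ((Subgroup.closure {x, y} : Subgroup G) : Set G) ⊆ S x y Y := by
  intro g hg
  have hx : ∀ s ∈ S x y Y, x * s ∈ S x y Y := by
    rintro _ ⟨w, hw, rfl⟩
    obtain ⟨v, hv, h1⟩ := nf_x h w hw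
    exact ⟨v, hv, h1⟩
  have hy : ∀ s ∈ S x y Y, y * s ∈ S x y Y := by
    rintro _ ⟨w, hw, rfl⟩
    obtain ⟨v, hv, h1⟩ := nf_y h w hw
    exact ⟨v, hv, h1⟩
  have hxi : x⁻¹ = x := inv_eq_of_mul_eq_one_left h.xx
  have hyi : y⁻¹ = y * y := by
    rw [h.yy]
    exact inv_eq_of_mul_eq_one_left h.Yy
  have key : ∀ g ∈ Subgroup.closure ({x, y} : Set G), (∀ s ∈ S x y Y, g * s ∈ S x y Y) ∧
      ∀ s ∈ S x y Y, g⁻¹ * s ∈ S x y Y := by
    intro g hg
    induction hg using Subgroup.closure_induction with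
    | mem g hg =>
      rcases hg with rfl | hg
      · exact ⟨hx, by rw [hxi]; exact hx⟩
      · rw [Set.mem_singleton_iff] at hg
        subst hg
        refine ⟨hy, ?_⟩
        rw [hyi]
        intro s hs
        rw [mul_assoc]
        exact hy _ (hy _ hs)
    | one => simp
    | mul a b _ _ ha hb =>
      constructor
      · intro s hs
        rw [mul_assoc]
        exact ha.1 _ (hb.1 _ hs)
      · intro s hs
        rw [mul_inv_rev, mul_assoc]
        exact hb.2 _ (ha.2 _ hs)
    | inv a _ ha =>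
      refine ⟨ha.2, ?_⟩
      rw [inv_inv]
      exact ha.1
  have h1 : (1 : G) ∈ S x y Y := ⟨[], by decide, rfl⟩
  have := (key g hg).1 1 h1
  rwa [mul_one] at this

theorem card_le (h : Rel x y Y) (ht : Subgroup.closure {x, y} = ⊤) : Nat.card G ≤ 60 := by
  classical
  have h1 : (Set.univ : Set G) ⊆ ((nf.map (ev x y Y)).toFinset : Set G) := by
    intro g _
    have hg : g ∈ ((Subgroup.closure {x, y} : Subgroup G) : Set G) := by rw [ht]; trivial
    obtain ⟨w, hw, rfl⟩ := closure_sub h hg
    simp only [List.coe_toFinset, List.mem_map, Set.mem_ofPred_eq]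
    exact ⟨w, hw, rfl⟩
  have h2 : (Set.univ : Set G).ncard ≤ 60 := by
    refine (Set.ncard_le_ncard h1 (Finset.finite_toSet _)).trans ?_
    rw [Set.ncard_coe_finset]
    refine (List.toFinset_card_le _).trans ?_
    rw [List.length_map]
    decide
  rwa [Set.ncard_univ] at h2

theorem rel_of {x y z : G} (hx : x ^ 2 = 1) (hy : y ^ 3 = 1) (hz : z ^ 5 = 1) (hxyz : x * y * z = 1) :
    Rel x y (y * y) where
  xx := by rw [← pow_two, hx]
  yY := by rw [← mul_assoc, ← pow_two, ← pow_succ, hy]
  Yy := by rw [← pow_two, ← pow_succ, hy]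
  yy := rfl
  YY := by
    have : y * y * (y * y) = y ^ 3 * y := by simp only [pow_succ, pow_zero, one_mul, mul_assoc]
    rw [this, hy, one_mul]
  pow := by
    have : x * y = z⁻¹ := eq_inv_of_mul_eq_one_left hxyz
    rw [this, inv_pow, hz, inv_one]

/-- Among permutations of three or four points only trivial solutions exist. -/
theorem small3 : ∀ x y : Equiv.Perm (Fin 3), (x * x = 1 ∧ y * y * y = 1 ∧
    (x * y) * (x * y) * (x * y) * (x * y) * (x * y) = 1) → x = 1 ∧ y = 1 := by decide +kernel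

theorem small4 : ∀ x y : Equiv.Perm (Fin 4), (x * x = 1 ∧ y * y * y = 1 ∧
    (x * y) * (x * y) * (x * y) * (x * y) * (x * y) = 1) → x = 1 ∧ y = 1 := by decide +kernel

end Pool.Agent.H87R3.Tri
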